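import Pool.Agent.Lib.MP_3b3418_ag.PW.SpecF

/-!
# Project PV2, module Al: `SL_2` structures at stage `q`
-/

set_option autoImplicit false

namespace PW

open MP3s PV

private theorem Al_chr_add {m : ℕ} (χ χ' : Fin m → ℤ) (b : Bo m) :
    chr (χ + χ') b = chr χ b * chr χ' b := by
  unfold chr
  rw [← Finset.prod_mul_distrib]
  exact Finset.prod_congr rfl fun i _ => zpow_add₀ (mB_diag_ne b i) _ _

private theorem Al_chr_zero {m : ℕ} (b : Bo m) : chr (0 : Fin m → ℤ) b = 1 := by
  unfold chr
  exact Finset.prod_eq_one fun i _ => zpow_zero _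

private theorem Al_inv {m : ℕ} (b : Bo m) (i : Fin m) : mB b⁻¹ i i = (mB b i i)⁻¹ := by
  have h : mB b i i * mB b⁻¹ i i = 1 := by
    rw [← mB_diag_mul, mul_inv_cancel]
    exact Matrix.one_apply_eq i
  exact eq_inv_of_mul_eq_one_right h

private theorem Al_chr_lt {m q : ℕ} (b : Bo m) (k : Lt m) (hk : k.2.1.2.val < q) :
    chr (wtc (clq q k)) b =
      if k.1 = some true then mB b k.2.1.1 k.2.1.1 * mB b⁻¹ k.2.1.2 k.2.1.2
      else mB b⁻¹ k.2.1.1 k.2.1.1 * mB b k.2.1.2 k.2.1.2 := by
  obtain ⟨s, ⟨⟨r, p⟩, hrp⟩⟩ := k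
  have hne : r ≠ p := ne_of_lt hrp
  have hw : ∀ i : Fin m, wtc (m := m) (clq q (s, ⟨(r, p), hrp⟩)) i =
      (if s = some true then 1 else -1) *
        ((if i = r then 1 else 0) - if i = p then 1 else 0) := by
    intro i
    have hk' : p.val < q := hk
    unfold wtc clq
    simp only [hk', if_true, Nat.succ_ne_zero, if_false, Nat.add_right_cancel_iff, Fin.ext_iff]
  unfold chr
  simp only [hw]
  rw [Fintype.prod_eq_mul r p hne]
  · rw [Al_inv, Al_inv]
    by_cases hs : s = some true
    · simp [hs, hne, hne.symm]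
    · simp [hs, hne, hne.symm]
  · rintro i ⟨h1, h2⟩
    rw [if_neg h1, if_neg h2, sub_zero, mul_zero, zpow_zero]

private theorem Al_chr_ge {m q : ℕ} (b : Bo m) (k : Lt m) (hk : ¬ k.2.1.2.val < q) :
    chr (wtc (clq q k)) b = 1 := by
  have h : wtc (m := m) (clq q k) = 0 := by
    funext i
    unfold wtc clq
    simp only [if_neg hk, if_true]
    rfl
  rw [h, Al_chr_zero]

private theorem Al_key (hPh : S_Ph) {m q : ℕ} {b : Bo m} {a' : LM m}
    (hA : KP (clq (m := m) q) (aq q b)) (hK : KP (clq (m := m) q) a')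
    (h : ∀ k' k : Lt m, aq q b k' k = chr (wtc (clq q k)) b * a' k' k)
    (l : List (Lt m)) :
    Ph (aq q b) (wd l) =
      chr (muK ((l.map (clq q) : List (Option Bool × ℕ × ℕ)) :
        Multiset (Option Bool × ℕ × ℕ))) b • Ph a' (wd l) := by
  induction l with
  | nil =>
    change Ph (aq q b) 1 = chr (muK (0 : Multiset (Option Bool × ℕ × ℕ))) b • Ph a' 1
    have h0 : muK (m := m) (0 : Multiset (Option Bool × ℕ × ℕ)) = 0 := by
      unfold muK
      rw [Multiset.map_zero, Multiset.sum_zero]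
    rw [map_one, map_one, h0, Al_chr_zero, one_smul]
  | cons k l ih =>
    have h1 : wd (k :: l) = el k * wd l := by
      unfold wd
      rw [List.map_cons, List.prod_cons]
    have h2 : muK (m := m) (((k :: l).map (clq q) : List (Option Bool × ℕ × ℕ)) :
        Multiset (Option Bool × ℕ × ℕ)) = wtc (clq q k) +
        muK ((l.map (clq q) : List (Option Bool × ℕ × ℕ)) :
          Multiset (Option Bool × ℕ × ℕ)) := by
      unfold muK
      rw [List.map_cons, ← Multiset.cons_coe, Multiset.map_cons, Multiset.sum_cons]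
    have h3 : Ph (aq q b) (el k) = chr (wtc (clq q k)) b • Ph a' (el k) := by
      rw [(hPh m _ (clq q) (aq q b) hA).1 k, (hPh m _ (clq q) a' hK).1 k, Finset.smul_sum]
      exact Finset.sum_congr rfl fun k' _ => by rw [h k' k, mul_smul]
    rw [h1, h2, map_mul, map_mul, ih, h3, Al_chr_add, smul_mul_smul_comm]

private theorem Al_ext {m q : ℕ} {b : Bo m} {a' : LM m}
    (h : ∀ l : List (Lt m), Ph (aq q b) (wd l) =
      chr (muK ((l.map (clq q) : List (Option Bool × ℕ × ℕ)) :
        Multiset (Option Bool × ℕ × ℕ))) b • Ph a' (wd l))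
    (κ : Multiset (Option Bool × ℕ × ℕ)) (f : RA m) (hf : f ∈ Yc (m := m) (clq q) κ) :
    Ph (aq q b) f = chr (muK κ) b • Ph a' f := by
  unfold Yc at hf
  induction hf using Submodule.span_induction with
  | mem f hf =>
    obtain ⟨l, hl, rfl⟩ := hf
    rw [h l, hl]
  | zero => rw [map_zero, map_zero, smul_zero]
  | add x y _ _ hx hy => rw [map_add, map_add, hx, hy, smul_add]
  | smul c x _ hx => rw [map_smul, map_smul, hx, smul_comm]

/-- Letters are equal if kind, column and row agree. -/
private theorem Al_lt_ext {m : ℕ} {k' k : Lt m} (h1 : k'.1 = k.1) (h2 : k'.2.1.2 = k.2.1.2)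
    (h3 : k'.2.1.1 = k.2.1.1) : k' = k :=
  Prod.ext h1 (Subtype.ext (Prod.ext h3 h2))

private theorem Al_aq_lt {m q : ℕ} (b : Bo m) (k' k : Lt m) (hk : k.2.1.2.val < q) :
    aq q b k' k = chr (wtc (clq q k)) b * if k' = k then 1 else 0 := by
  unfold aq cm
  by_cases h : k' = k
  · subst h
    rw [if_pos ⟨rfl, rfl⟩, if_pos rfl, mul_one, Al_chr_lt b k' hk]
    unfold trc
    simp only [if_pos hk, Matrix.diagonal_apply_eq]
  · rw [if_neg h, mul_zero]
    by_cases h1 : k'.1 = k.1 ∧ k'.2.1.2 = k.2.1.2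
    · have h2 : k'.2.1.1 ≠ k.2.1.1 := fun h3 => h (Al_lt_ext h1.1 h1.2 h3)
      rw [if_pos h1]
      unfold trc
      simp only [if_pos hk, Matrix.diagonal_apply_ne _ h2, Matrix.diagonal_apply_ne _ h2.symm,
        zero_mul, ite_self]
    · rw [if_neg h1]

/-- The matrix of `x ∈ SL_m` on the letters of the columns `≥ q`. -/
private noncomputable def Al_a {m : ℕ} (q : ℕ) (x : SLm m) : LM m :=
  cm (fun p => if p.val < q then 1 else mat x) (fun p => if p.val < q then 1 else mat x⁻¹)
    (fun _ => 1) (fun _ => 1)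

private theorem Al_a_lt {m q : ℕ} (x : SLm m) (k' k : Lt m) (hk : k.2.1.2.val < q) :
    Al_a q x k' k = if k' = k then 1 else 0 := by
  unfold Al_a cm
  by_cases h : k' = k
  · subst h
    rw [if_pos ⟨rfl, rfl⟩, if_pos rfl]
    simp only [if_pos hk, Matrix.one_apply_eq, mul_one, ite_self]
  · rw [if_neg h]
    by_cases h1 : k'.1 = k.1 ∧ k'.2.1.2 = k.2.1.2
    · have h2 : k'.2.1.1 ≠ k.2.1.1 := fun h3 => h (Al_lt_ext h1.1 h1.2 h3)
      rw [if_pos h1]
      simp only [if_pos hk, Matrix.one_apply_ne h2, Matrix.one_apply_ne h2.symm, zero_mul, ite_self]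
    · rw [if_neg h1]

private theorem Al_a_ge {m q : ℕ} (b : Bo m) (x : SLm m) (hx : b.1 = x) (k' k : Lt m)
    (hk : ¬ k.2.1.2.val < q) (hb : mB b k.2.1.2 k.2.1.2 = 1) :
    aq q b k' k = Al_a q x k' k := by
  subst hx
  have hb' : mB b⁻¹ k.2.1.2 k.2.1.2 = 1 := by rw [Al_inv, hb, inv_one]
  unfold aq Al_a cm
  simp only [hb, hb', trc, if_neg hk]
  rfl

private theorem Al_kp {m q : ℕ} (x : SLm m) : KP (clq (m := m) q) (Al_a q x) := by
  intro k' k h
  by_cases hk : k.2.1.2.val < q
  · rw [Al_a_lt x k' k hk, if_neg]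
    rintro rfl
    rcases h with h | h
    · exact h rfl
    · exact h rfl
  · unfold Al_a cm
    rw [if_neg]
    rintro ⟨h1, h2⟩
    rcases h with h | h
    · exact h h1
    · refine h ?_
      unfold clq
      rw [h1, h2, if_neg hk, if_neg hk]

private theorem Al_kp1 {m q : ℕ} : KP (clq (m := m) q) (1 : LM m) := by
  intro k' k h
  refine Matrix.one_apply_ne ?_
  rintro rfl
  rcases h with h | h
  · exact h rfl
  · exact h rfl

private theorem Al_blc {m q : ℕ} {i j : Fin m} (hij : j.val = i.val + 1) (hj : j.val < q)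
    {g : SLm 2} {x : SLm m} (hx : Blk i j g x) :
    Blc (fun p : Fin m => if p.val < q then (1 : Gl m) else mat x) := by
  intro p k l hl hk
  have hkl : k ≠ l := fun h => absurd (h ▸ hk) (not_le.2 hl)
  change (if p.val < q then (1 : Gl m) else mat x) k l = 0
  by_cases hp : p.val < q
  · rw [if_pos hp]
    exact Matrix.one_apply_ne hkl
  · rw [if_neg hp]
    have h1 : p.val ≤ k.val := hk
    have hki : k ≠ i := fun h => by
      rw [h] at h1
      omega
    have hkj : k ≠ j := fun h => by
      rw [h] at h1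
      omega
    have h := hx k l
    rw [if_neg hki, if_neg hkj, if_neg hkl] at h
    exact h

private theorem Al_rd (hCm : S_Cm) {m q : ℕ} {i j : Fin m} (hij : j.val = i.val + 1)
    (hj : j.val < q) (e : SLm 2 →* SLm m) (he : ∀ g, Blk i j g (e g)) (hm : Mor e) :
    RD (clq (m := m) q) (fun g : SLm 2 => Al_a q (e g)) := by
  refine ⟨fun g => Al_kp (e g), ?_, ?_, ?_⟩
  · change Al_a q (e 1) = 1
    rw [map_one, ← (hCm m (fun _ => 1) (fun _ => 1) (fun _ => 1) (fun _ => 1) (fun _ => 1)
      (fun _ => 1) (fun _ => 1) (fun _ => 1) (fun p k l hl hk => Matrix.one_apply_ne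
        fun h => absurd (h ▸ hk) (not_le.2 hl)) (fun p k l hl hk => Matrix.one_apply_ne
        fun h => absurd (h ▸ hk) (not_le.2 hl))).2]
    unfold Al_a
    have h1 : (fun p : Fin m => if p.val < q then (1 : Gl m) else mat (1 : SLm m)) =
        fun _ => 1 := by
      funext p
      rw [mat_one]
      exact ite_self _
    have h2 : (fun p : Fin m => if p.val < q then (1 : Gl m) else mat (1 : SLm m)⁻¹) =
        fun _ => 1 := by
      funext p
      rw [inv_one, mat_one]
      exact ite_self _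
    rw [h1, h2]
  · intro x y
    change Al_a q (e (x * y)) = Al_a q (e x) * Al_a q (e y)
    have hZ : Blc (fun p : Fin m => if p.val < q then (1 : Gl m) else mat (e x)⁻¹) := by
      have h := Al_blc hij hj (he x⁻¹)
      rw [map_inv] at h
      exact h
    unfold Al_a
    rw [(hCm m _ _ _ _ _ _ _ _ (Al_blc hij hj (he y)) hZ).1]
    have h1 : (fun p : Fin m => if p.val < q then (1 : Gl m) else mat (e (x * y))) =
        fun p : Fin m => (if p.val < q then (1 : Gl m) else mat (e x)) *
          (if p.val < q then (1 : Gl m) else mat (e y)) := by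
      funext p
      by_cases hp : p.val < q
      · rw [if_pos hp, if_pos hp, if_pos hp, mul_one]
      · rw [if_neg hp, if_neg hp, if_neg hp, map_mul, mat_mul]
    have h2 : (fun p : Fin m => if p.val < q then (1 : Gl m) else mat (e (x * y))⁻¹) =
        fun p : Fin m => (if p.val < q then (1 : Gl m) else mat (e y)⁻¹) *
          (if p.val < q then (1 : Gl m) else mat (e x)⁻¹) := by
      funext p
      by_cases hp : p.val < q
      · rw [if_pos hp, if_pos hp, if_pos hp, mul_one]
      · rw [if_neg hp, if_neg hp, if_neg hp, map_mul, mul_inv_rev, mat_mul]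
    rw [h1, h2]
    simp only [mul_one]
  · intro k' k
    have hE : ∀ r s : Fin m, RegF fun g : SLm 2 => mat (e g) r s := fun r s => hm (r, s)
    have hI : ∀ r s : Fin m, RegF fun g : SLm 2 => mat (e g)⁻¹ r s := fun r s =>
      (Mor.comp (tMor m).2.1 hm) (r, s)
    by_cases h1 : k'.1 = k.1 ∧ k'.2.1.2 = k.2.1.2
    · by_cases hk : k.2.1.2.val < q
      · have h : (fun g : SLm 2 => Al_a q (e g) k' k) = fun _ => if k' = k then 1 else 0 :=
          funext fun g => Al_a_lt (e g) k' k hk
        rw [h]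
        exact RegF.const _
      · by_cases hs : k.1 = some true
        · have h : (fun g : SLm 2 => Al_a q (e g) k' k) =
              fun g => mat (e g) k'.2.1.1 k.2.1.1 := by
            funext g
            unfold Al_a cm
            simp only [if_pos h1, if_pos hs, if_neg hk, mul_one]
          rw [h]
          exact hE _ _
        · have h : (fun g : SLm 2 => Al_a q (e g) k' k) =
              fun g => mat (e g)⁻¹ k.2.1.1 k'.2.1.1 := by
            funext g
            unfold Al_a cm
            simp only [if_pos h1, if_neg hs, if_neg hk, mul_one]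
          rw [h]
          exact hI _ _
    · have h : (fun g : SLm 2 => Al_a q (e g) k' k) = fun _ => 0 := by
        funext g
        unfold Al_a cm
        rw [if_neg h1]
      rw [h]
      exact RegF.const _

theorem tAl : S_Ph → S_Cm → S_Re → S_Aq → S_Al := by
  intro hPh hCm hRe hAq m q κ θ hθ
  have hRD := hAq m q
  have hRat : Rat θ := (hRe m (Bo m) _ (clq q) (fun b => aq q b) hRD κ).2 θ hθ
  refine ⟨?_, ?_⟩
  · intro i j hij hj
    obtain ⟨⟨e, he, hm⟩, -, -, huniq⟩ := tEmb m i j hij
    have hR2 := Al_rd hCm hij hj e he hm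
    obtain ⟨σ, hσ⟩ := (hRe m (SLm 2) _ (clq q) (fun g => Al_a q (e g)) hR2 κ).1
    have hσR : Rat σ := (hRe m (SLm 2) _ (clq q) (fun g => Al_a q (e g)) hR2 κ).2 σ hσ
    refine ⟨σ, fun v => (hRat v).smul ((tMor m).2.2.2.2.2 (-muK κ)), hσR, ?_⟩
    intro g b hg hb
    rw [zpow_zero, one_smul]
    have hbe : b.1 = e g := huniq g _ _ hb (he g)
    have hkey : ∀ k' k : Lt m, aq q b k' k = chr (wtc (clq q k)) b * Al_a q (e g) k' k := by
      intro k' k
      by_cases hk : k.2.1.2.val < q
      · rw [Al_aq_lt b k' k hk, Al_a_lt (e g) k' k hk]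
      · rw [Al_chr_ge b k hk, one_mul]
        refine Al_a_ge b (e g) hbe k' k hk ?_
        have hpi : k.2.1.2 ≠ i := fun h => hk (by rw [h]; omega)
        have hpj : k.2.1.2 ≠ j := fun h => hk (by rw [h]; omega)
        have h := hb k.2.1.2 k.2.1.2
        rw [if_neg hpi, if_neg hpj, if_pos rfl] at h
        exact h
    refine LinearMap.ext fun v => Subtype.ext ?_
    have h1 := Al_ext (Al_key hPh (hRD.kp b) (Al_kp (e g)) hkey) κ v.1 v.2
    change chr (-muK κ) b • (θ b v).1 = (σ g v).1
    rw [hθ b v, hσ g v]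
    change chr (-muK κ) b • Ph (aq q b) v.1 = Ph (Al_a q (e g)) v.1
    rw [h1, smul_smul, ← Al_chr_add, neg_add_cancel, Al_chr_zero, one_smul]
  · intro hmq b v
    have hkey : ∀ k' k : Lt m, aq q b k' k = chr (wtc (clq q k)) b * (1 : LM m) k' k := by
      intro k' k
      rw [Al_aq_lt b k' k (lt_of_lt_of_le k.2.1.2.isLt hmq), Matrix.one_apply]
    have h1 := Al_ext (Al_key hPh (hRD.kp b) Al_kp1 hkey) κ v.1 v.2
    refine Subtype.ext ?_
    rw [hθ b v]
    change Ph (aq q b) v.1 = chr (muK κ) b • v.1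
    rw [h1]
    have h2 : ∀ f ∈ Yc (m := m) (clq q) κ, Ph (1 : LM m) f = f := by
      intro f hf
      unfold Yc at hf
      induction hf using Submodule.span_induction with
      | mem f hf =>
        obtain ⟨l, -, rfl⟩ := hf
        exact (hPh m _ (clq q) 1 Al_kp1).2.2.2 l
      | zero => rw [map_zero]
      | add x y _ _ hx hy => rw [map_add, hx, hy]
      | smul c x _ hx => rw [map_smul, hx]
    rw [h2 v.1 v.2]

end PW
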