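import Pool.Agent.Lib.MP_3b3418_ag.PW.SpecF

/-!
# Project PV2, part F: the stage actions are regular multiplicative families (helper10)
-/

set_option autoImplicit false

namespace PW

open MP3s PV

private theorem Aq_trc_apply {m : ℕ} (q : ℕ) (p : Fin m) (x : Gl m) (i j : Fin m) :
    trc q p x i j = if p.val < q then (if i = j then x i i else 0) else x i j := by
  unfold trc
  split_ifs with h1 h2
  · subst h2
    exact Matrix.diagonal_apply_eq _ _
  · exact Matrix.diagonal_apply_ne _ h2
  · rfl

private theorem Aq_trc_one {m : ℕ} (q : ℕ) (p : Fin m) : trc q p (1 : Gl m) = 1 := by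
  unfold trc
  split_ifs with h
  · have h1 : (fun i : Fin m => (1 : Gl m) i i) = fun _ => 1 := funext fun i => Matrix.one_apply_eq i
    rw [h1]
    exact Matrix.diagonal_one
  · rfl

private theorem Aq_mB_one {m : ℕ} : mB (1 : Bo m) = 1 := mat_one

private theorem Aq_trc_mul {m : ℕ} (q : ℕ) (p : Fin m) (x y : Bo m) :
    trc q p (mB x) * trc q p (mB y) = trc q p (mB (x * y)) := by
  unfold trc
  split_ifs with h
  · rw [Matrix.diagonal_mul_diagonal]
    exact congrArg Matrix.diagonal (funext fun i => (mB_diag_mul x y i).symm)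
  · exact (mB_mul x y).symm

private theorem Aq_blc {m : ℕ} (q : ℕ) (y : Bo m) : Blc fun p : Fin m => trc q p (mB y) := by
  intro p k l hl hk
  have hlk : l < k := lt_of_lt_of_le hl hk
  change trc q p (mB y) k l = 0
  rw [Aq_trc_apply]
  have h1 : mB y k l = 0 := y.2 k l hlk
  have h2 : ¬ k = l := ne_of_gt hlk
  rw [h1, if_neg h2]
  exact ite_self 0

private theorem Aq_regB {m : ℕ} (i j : Fin m) : RegF fun x : Bo m => mB x i j :=
  RegF.co (X := Bo m) (i, j)

private theorem Aq_regBi {m : ℕ} (i j : Fin m) : RegF fun x : Bo m => mB x⁻¹ i j :=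
  (Aq_regB i j).comp (tMor m).2.2.2.1

private theorem Aq_regT {m : ℕ} (q : ℕ) (p : Fin m) (f : Bo m → Gl m)
    (hf : ∀ i j, RegF fun x => f x i j) (i j : Fin m) : RegF fun x => trc q p (f x) i j := by
  have h1 : (fun x => trc q p (f x) i j) =
      fun x => if p.val < q then (if i = j then f x i i else 0) else f x i j :=
    funext fun x => Aq_trc_apply q p (f x) i j
  rw [h1]
  by_cases h : p.val < q
  · by_cases h2 : i = j
    · simp only [if_pos h, if_pos h2]
      exact hf i i
    · simp only [if_pos h, if_neg h2]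
      exact RegF.const 0
  · simp only [if_neg h]
    exact hf i j

theorem tAq : S_Cm → S_Aq := by
  intro hCm m q
  refine ⟨fun x k' k hk => ?_, ?_, fun x y => ?_, fun k' k => ?_⟩
  · change cm _ _ _ _ k' k = 0
    unfold cm
    split_ifs with h1 h2
    · have hr : ¬ k'.2.1.1 = k.2.1.1 ∧ k.2.1.2.val < q := by
        rcases hk with hk | hk
        · exact absurd h1.1 hk
        · by_contra hcon
          apply hk
          unfold clq
          rw [h1.1, h1.2]
          by_cases hq : k.2.1.2.val < q
          · have : k'.2.1.1 = k.2.1.1 := by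
              by_contra hne
              exact hcon ⟨hne, hq⟩
            rw [this]
          · simp only [if_neg hq]
      have h9 : trc q k.2.1.2 (mB x) k'.2.1.1 k.2.1.1 = 0 := by
        rw [Aq_trc_apply, if_pos hr.2, if_neg hr.1]
      exact mul_eq_zero_of_left h9 _
    · have hr : ¬ k.2.1.1 = k'.2.1.1 ∧ k.2.1.2.val < q := by
        rcases hk with hk | hk
        · exact absurd h1.1 hk
        · by_contra hcon
          apply hk
          unfold clq
          rw [h1.1, h1.2]
          by_cases hq : k.2.1.2.val < q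
          · have : k.2.1.1 = k'.2.1.1 := by
              by_contra hne
              exact hcon ⟨hne, hq⟩
            rw [this]
          · simp only [if_neg hq]
      have h9 : trc q k.2.1.2 (mB x⁻¹) k.2.1.1 k'.2.1.1 = 0 := by
        rw [Aq_trc_apply, if_pos hr.2, if_neg hr.1]
      exact mul_eq_zero_of_left h9 _
    · rfl
  · change cm _ _ _ _ = 1
    rw [inv_one, Aq_mB_one]
    have h1 : (fun p : Fin m => trc q p (1 : Gl m)) = fun _ => 1 := funext fun p => Aq_trc_one q p
    have h2 : (fun p : Fin m => (1 : Gl m) p p) = fun _ => 1 := funext fun p => Matrix.one_apply_eq p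
    rw [h1, h2]
    exact (hCm m (fun _ => 1) (fun _ => 1) (fun _ => 1) (fun _ => 1) (fun _ => 1) (fun _ => 1)
      (fun _ => 1) (fun _ => 1) (fun p k l hl hk => Matrix.one_apply_ne
        (ne_of_gt (lt_of_lt_of_le hl hk))) (fun p k l hl hk => Matrix.one_apply_ne
        (ne_of_gt (lt_of_lt_of_le hl hk)))).2
  · change cm _ _ _ _ = cm _ _ _ _ * cm _ _ _ _
    rw [(hCm m (fun p => trc q p (mB x)) (fun p => trc q p (mB x⁻¹)) (fun p => trc q p (mB y))
      (fun p => trc q p (mB y⁻¹)) (fun p => mB x p p) (fun p => mB x⁻¹ p p) (fun p => mB y p p)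
      (fun p => mB y⁻¹ p p) (Aq_blc q y) (Aq_blc q x⁻¹)).1]
    have h1 : (fun p : Fin m => trc q p (mB x) * trc q p (mB y)) = fun p => trc q p (mB (x * y)) :=
      funext fun p => Aq_trc_mul q p x y
    have h2 : (fun p : Fin m => trc q p (mB y⁻¹) * trc q p (mB x⁻¹)) =
        fun p => trc q p (mB (x * y)⁻¹) := funext fun p => by
      rw [Aq_trc_mul q p y⁻¹ x⁻¹, mul_inv_rev]
    have h3 : (fun p : Fin m => mB x p p * mB y p p) = fun p => mB (x * y) p p :=
      funext fun p => (mB_diag_mul x y p).symm
    have h4 : (fun p : Fin m => mB x⁻¹ p p * mB y⁻¹ p p) = fun p => mB (x * y)⁻¹ p p :=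
      funext fun p => by rw [mul_inv_rev, mB_diag_mul, mul_comm]
    rw [h1, h2, h3, h4]
  · change RegF fun x => cm _ _ _ _ k' k
    unfold cm
    by_cases h1 : k'.1 = k.1 ∧ k'.2.1.2 = k.2.1.2
    · by_cases h2 : k.1 = some true
      · simp only [if_pos h1, if_pos h2]
        exact (Aq_regT q _ _ Aq_regB _ _).mul (Aq_regBi _ _)
      · simp only [if_pos h1, if_neg h2]
        exact (Aq_regT q _ _ Aq_regBi _ _).mul (Aq_regB _ _)
    · simp only [if_neg h1]
      exact RegF.const 0

end PW
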