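import Pool.Agent.Lib.MP_3b3418_ag.PW.SpecF

/-!
# The base: triviality for the module of normal forms from the word classes
-/

set_option autoImplicit false

namespace PW

open MP3s PV

private theorem Ba_tw {m : ℕ} {V : Type} [AddCommGroup V] [Module ℂ V]
    (ρ : Representation ℂ (Bo m) V) : tw ρ 0 = ρ := by
  refine MonoidHom.ext fun b => LinearMap.ext fun v => ?_
  change chr 0 b • ρ b v = ρ b v
  have h : chr (0 : Fin m → ℤ) b = 1 := by
    unfold chr
    exact Finset.prod_eq_one fun i _ => by rw [Pi.zero_apply, zpow_zero]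
  rw [h, one_smul]

private theorem Ba_card (κ : Multiset (Option Bool)) (κ' : Multiset (Option Bool))
    (h0 : κ.count none = κ'.count none) (h1 : κ.count (some true) = κ'.count (some true))
    (h2 : κ.count (some false) = κ'.count (some false)) : κ = κ' := by
  refine Multiset.ext.2 fun a => ?_
  rcases a with _ | a
  · exact h0
  · cases a
    · exact h2
    · exact h1

private theorem Ba_fin (j : ℕ) (k : ℤ) : {κ | Adm j k κ}.Finite := by
  refine Set.Finite.of_finite_image (f := fun κ : Multiset (Option Bool) => κ.count (some true)) ?_ ?_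
  · refine (Set.finite_Iic j).subset ?_
    rintro _ ⟨κ, hκ, rfl⟩
    have := hκ.1
    simp only [Set.mem_Iic]
    omega
  · intro κ hκ κ' hκ' h
    have a1 := hκ.1
    have a2 := hκ.2
    have b1 := hκ'.1
    have b2 := hκ'.2
    have h' : κ.count (some true) = κ'.count (some true) := h
    refine Ba_card κ κ' ?_ h' ?_ <;> omega

private theorem Ba_cnt (a : Option Bool) (l : List (Option Bool)) :
    (l : Multiset (Option Bool)).count a = l.count a := by
  induction l with
  | nil => rfl
  | cons b l ih =>
    rw [← Multiset.cons_coe, Multiset.count_cons, ih, List.count_cons]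
    by_cases h : a = b
    · subst h
      simp
    · have h' : ¬ b = a := fun h0 => h h0.symm
      simp [h, h']

private theorem Ba_adm {m j : ℕ} {k : ℤ} {l l' : List (Lt m)}
    (h : Adm j k ((l.map clk : List _) : Multiset _))
    (h2 : (l'.map clk).count (some true) + (l'.map clk).count (some false) =
      (l.map clk).count (some true) + (l.map clk).count (some false))
    (h3 : (l'.map clk).count none + (l.map clk).count (some true) =
      (l.map clk).count none + (l'.map clk).count (some true)) :
    Adm j k ((l'.map clk : List _) : Multiset _) := by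
  have a1 := h.1
  have a2 := h.2
  rw [Ba_cnt, Ba_cnt] at a1 a2
  constructor
  · rw [Ba_cnt, Ba_cnt]
    omega
  · rw [Ba_cnt, Ba_cnt]
    omega

/-- The base. -/
theorem tBa : S_Is → S_Dg → S_Ev → S_Re → S_Cj → S_Ps → S_Em → S_Ba := by
  intro hIs hDg hEv hRe hCj hPs hEm m j k ρM hM hR i hTV
  obtain ⟨hinj, hmap, hinc⟩ := hEm m j k
  have hinc' := hinc ρM hM
  -- the transported representation
  let V : Submodule ℂ (RA m) := Submodule.map (inc m j) (Mjk m j k)
  let e : Mjk m j k ≃ₗ[ℂ] V := Submodule.equivMapOfInjective (inc m j) hinj (Mjk m j k)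
  have he : ∀ q : Mjk m j k, (e q).1 = inc m j q.1 := fun q =>
    Submodule.coe_equivMapOfInjective_apply (inc m j) hinj (Mjk m j k) q
  let θ : Representation ℂ (Bo m) V :=
    { toFun := fun b => e.toLinearMap ∘ₗ ρM b ∘ₗ e.symm.toLinearMap
      map_one' := by
        refine LinearMap.ext fun v => ?_
        change e (ρM 1 (e.symm v)) = v
        rw [map_one]
        exact e.apply_symm_apply v
      map_mul' := fun b b' => by
        refine LinearMap.ext fun v => ?_
        change e (ρM (b * b') (e.symm v)) = e (ρM b (e.symm (e (ρM b' (e.symm v)))))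
        rw [map_mul, e.symm_apply_apply]
        rfl }
  have hθ : ∀ b v, θ b v = e (ρM b (e.symm v)) := fun b v => rfl
  have hθP : ∀ b v, (θ b v).1 = (Ps b).toLinearMap v.1 := by
    intro b v
    rw [hθ, he, hinc', ← he, e.apply_symm_apply]
    rfl
  have hθR : Rat θ := fun v => (hR (e.symm v)).map e.toLinearMap
  -- the representations on the classes
  have hRD := (hCj m).1
  choose ρ hρ using fun κ => (hRe m (Bo m) (Option Bool) clk (fun b => ac b) hRD κ).1
  have hρR : ∀ κ, Rat (ρ κ) := fun κ =>
    (hRe m (Bo m) (Option Bool) clk (fun b => ac b) hRD κ).2 (ρ κ) (hρ κ)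
  obtain ⟨D, ev, hev, hD⟩ := hEv m (Option Bool) clk
  let K : Finset (Multiset (Option Bool)) := (Ba_fin j k).toFinset
  have hK : ∀ κ, κ ∈ K ↔ Adm j k κ := fun κ => (Ba_fin j k).mem_toFinset
  have hV : V = ⨆ κ ∈ K, Yc (m := m) clk κ := by
    change Submodule.map (inc m j) (Mjk m j k) = _
    rw [hmap]
    refine iSup_congr fun κ => ?_
    exact iSup_congr_Prop (hK κ).symm fun _ => rfl
  have hT : Trv θ i := by
    refine hDg m (RA m) (fun b => (Ps b).toLinearMap) (Multiset (Option Bool)) K
      (fun κ => Yc clk κ) ρ D ev (fun κ => (κ.count none : ℤ)) i (fun κ _ => hρR κ)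
      (fun κ _ => hD κ) (fun κ _ κ' _ h => hev h) ?_ ?_ V θ hV hθP hθR
    · intro κ hκ b w
      let S0 : Submodule ℂ (RA m) :=
        ⨆ κ' ∈ K.filter (fun κ' => (κ.count none : ℤ) < (κ'.count none : ℤ)), Yc (m := m) clk κ'
      have h1 : Yc (m := m) clk κ ≤ Submodule.comap
          ((Ps b).toLinearMap - (Ph (ac b)).toLinearMap) S0 := by
        refine Submodule.span_le.2 ?_
        rintro _ ⟨l, hl, rfl⟩
        change Ps b (wd l) - Ph (ac b) (wd l) ∈ S0
        refine (Submodule.span_le.2 ?_) (hPs m b l)
        rintro _ ⟨l', g1, g2, g3, rfl⟩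
        have hA : Adm j k ((l.map clk : List _) : Multiset _) := by
          rw [hl]
          exact (hK κ).1 hκ
        have hA' := Ba_adm hA g2 g3
        have hm : ((l'.map clk : List _) : Multiset (Option Bool)) ∈
            K.filter (fun κ' => (κ.count none : ℤ) < (κ'.count none : ℤ)) := by
          refine Finset.mem_filter.2 ⟨(hK _).2 hA', ?_⟩
          rw [← hl, Ba_cnt, Ba_cnt]
          exact_mod_cast g1
        refine Submodule.mem_iSup_of_mem _ (Submodule.mem_iSup_of_mem hm ?_)
        exact Submodule.subset_span ⟨l', rfl, rfl⟩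
      have h2 := h1 w.2
      rw [hρ κ b w]
      exact h2
    · intro κ hκ
      have h := hTV κ ((hK κ).1 hκ) (ρ κ) (hρ κ)
      rwa [Ba_tw] at h
  refine (hIs m V (Mjk m j k) θ ρM i).2 e.symm (fun b v => ?_) hT
  rw [hθ, e.symm_apply_apply]

end PW
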