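import Pool.Agent.Lib.MP_3b3418_ag.PW.SpecF

/-!
# PV2, piece Cj: the conjugation action on the letters is multiplicative and triangular
-/

set_option autoImplicit false

namespace PW

open MP3s PV

private theorem Cj_up {m : ℕ} (b : Bo m) {i j : Fin m} (h : mB b i j ≠ 0) : i ≤ j := by
  by_contra hcon
  exact h (b.2 i j (not_le.1 hcon))

private theorem Cj_t {m : ℕ} (b : Bo m) (k' k : Lt m) (hk : k'.1 = k.1) (ht : k.1 = some true) :
    ac b k' k = mB b k'.2.1.1 k.2.1.1 * mB b⁻¹ k.2.1.2 k'.2.1.2 := by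
  unfold ac
  rw [if_pos hk, if_pos ht]

private theorem Cj_f {m : ℕ} (b : Bo m) (k' k : Lt m) (hk : k'.1 = k.1) (ht : k.1 ≠ some true) :
    ac b k' k = mB b⁻¹ k.2.1.1 k'.2.1.1 * mB b k'.2.1.2 k.2.1.2 := by
  unfold ac
  rw [if_pos hk, if_neg ht]

private theorem Cj_0 {m : ℕ} (b : Bo m) (k' k : Lt m) (hk : k'.1 ≠ k.1) : ac b k' k = 0 := by
  unfold ac
  rw [if_neg hk]

private theorem Cj_sum {m : ℕ} (f : Fin m → Fin m → ℂ) (h : ∀ r c, ¬ r < c → f r c = 0) :
    ∑ p : Pr m, f p.1.1 p.1.2 = ∑ r, ∑ c, f r c := by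
  rw [← Fintype.sum_prod_type']
  rw [← Finset.sum_subtype (Finset.univ.filter fun p : Fin m × Fin m => p.1 < p.2)
    (by simp) (fun p : Fin m × Fin m => f p.1 p.2)]
  refine Finset.sum_subset (Finset.filter_subset _ _) fun p _ hp => h _ _ fun hlt => hp ?_
  exact Finset.mem_filter.2 ⟨Finset.mem_univ _, hlt⟩

private theorem Cj_inv_mul {m : ℕ} (x y : Bo m) (i j : Fin m) :
    mB (x * y)⁻¹ i j = ∑ k, mB y⁻¹ i k * mB x⁻¹ k j := by
  rw [mul_inv_rev, mB_mul, Matrix.mul_apply]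

private theorem Cj_mul' {m : ℕ} (x y : Bo m) (i j : Fin m) :
    mB (x * y) i j = ∑ k, mB x i k * mB y k j := by
  rw [mB_mul, Matrix.mul_apply]

private theorem Cj_kp {m : ℕ} (b : Bo m) : KP clk (ac b) := by
  rintro k' k (h | h)
  · exact Cj_0 b k' k h
  · exact Cj_0 b k' k h

private theorem Cj_one {m : ℕ} : ac (1 : Bo m) = 1 := by
  have h1 : mB (1 : Bo m) = 1 := mat_one
  ext k' k
  by_cases hk : k'.1 = k.1
  · have h2 : k' = k ↔ k'.2.1.1 = k.2.1.1 ∧ k'.2.1.2 = k.2.1.2 := by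
      constructor
      · intro h
        rw [h]
        exact ⟨rfl, rfl⟩
      · rintro ⟨h3, h4⟩
        exact Prod.ext hk (Subtype.ext (Prod.ext h3 h4))
    rw [Matrix.one_apply]
    by_cases ht : k.1 = some true
    · rw [Cj_t _ _ _ hk ht, inv_one, h1, Matrix.one_apply, Matrix.one_apply]
      by_cases h3 : k'.2.1.1 = k.2.1.1
      · by_cases h4 : k'.2.1.2 = k.2.1.2
        · rw [if_pos h3, if_pos h4.symm, if_pos (h2.2 ⟨h3, h4⟩), mul_one]
        · rw [if_neg (Ne.symm h4), mul_zero, if_neg fun h => h4 (h2.1 h).2]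
      · rw [if_neg h3, zero_mul, if_neg fun h => h3 (h2.1 h).1]
    · rw [Cj_f _ _ _ hk ht, inv_one, h1, Matrix.one_apply, Matrix.one_apply]
      by_cases h3 : k'.2.1.1 = k.2.1.1
      · by_cases h4 : k'.2.1.2 = k.2.1.2
        · rw [if_pos h3.symm, if_pos h4, if_pos (h2.2 ⟨h3, h4⟩), mul_one]
        · rw [if_neg h4, mul_zero, if_neg fun h => h4 (h2.1 h).2]
      · rw [if_neg (Ne.symm h3), zero_mul, if_neg fun h => h3 (h2.1 h).1]
  · rw [Cj_0 _ _ _ hk, Matrix.one_apply, if_neg fun h => hk (by rw [h])]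

private theorem Cj_mul {m : ℕ} (x y : Bo m) : ac (x * y) = ac x * ac y := by
  ext k' k
  rw [Matrix.mul_apply, Fintype.sum_prod_type]
  by_cases hk : k'.1 = k.1
  · have h0 : ∀ κ : Option Bool, κ ≠ k.1 →
        ∑ p : Pr m, ac x k' (κ, p) * ac y (κ, p) k = 0 := by
      intro κ hκ
      refine Finset.sum_eq_zero fun p _ => ?_
      rw [Cj_0 y (κ, p) k hκ, mul_zero]
    rw [Finset.sum_eq_single k.1 (fun κ _ hκ => h0 κ hκ) fun h => absurd (Finset.mem_univ _) h]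
    by_cases ht : k.1 = some true
    · have h1 : ∀ p : Pr m, ac x k' (k.1, p) * ac y (k.1, p) k =
          mB x k'.2.1.1 p.1.1 * mB x⁻¹ p.1.2 k'.2.1.2 *
            (mB y p.1.1 k.2.1.1 * mB y⁻¹ k.2.1.2 p.1.2) := by
        intro p
        rw [Cj_t x k' (k.1, p) hk ht, Cj_t y (k.1, p) k rfl ht]
      rw [Finset.sum_congr rfl fun p _ => h1 p,
        Cj_sum (fun r c => mB x k'.2.1.1 r * mB x⁻¹ c k'.2.1.2 *
            (mB y r k.2.1.1 * mB y⁻¹ k.2.1.2 c)), Cj_t _ _ _ hk ht, Cj_mul', Cj_inv_mul,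
        Finset.sum_mul_sum]
      · refine Finset.sum_congr rfl fun r _ => Finset.sum_congr rfl fun c _ => ?_
        ring
      · intro r c hrc
        by_contra hne
        apply hrc
        have h2 : mB y r k.2.1.1 ≠ 0 := fun h => hne (by rw [h]; ring)
        have h3 : mB y⁻¹ k.2.1.2 c ≠ 0 := fun h => hne (by rw [h]; ring)
        exact lt_of_le_of_lt (Cj_up _ h2) (lt_of_lt_of_le k.2.2 (Cj_up _ h3))
    · have h1 : ∀ p : Pr m, ac x k' (k.1, p) * ac y (k.1, p) k =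
          mB x⁻¹ p.1.1 k'.2.1.1 * mB x k'.2.1.2 p.1.2 *
            (mB y⁻¹ k.2.1.1 p.1.1 * mB y p.1.2 k.2.1.2) := by
        intro p
        rw [Cj_f x k' (k.1, p) hk ht, Cj_f y (k.1, p) k rfl ht]
      rw [Finset.sum_congr rfl fun p _ => h1 p,
        Cj_sum (fun r c => mB x⁻¹ r k'.2.1.1 * mB x k'.2.1.2 c *
            (mB y⁻¹ k.2.1.1 r * mB y c k.2.1.2)), Cj_f _ _ _ hk ht, Cj_mul', Cj_inv_mul,
        Finset.sum_mul_sum]
      · refine Finset.sum_congr rfl fun r _ => Finset.sum_congr rfl fun c _ => ?_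
        ring
      · intro r c hrc
        by_contra hne
        apply hrc
        have h2 : mB x⁻¹ r k'.2.1.1 ≠ 0 := fun h => hne (by rw [h]; ring)
        have h3 : mB x k'.2.1.2 c ≠ 0 := fun h => hne (by rw [h]; ring)
        exact lt_of_le_of_lt (Cj_up _ h2) (lt_of_lt_of_le k'.2.2 (Cj_up _ h3))
  · rw [Cj_0 _ _ _ hk]
    symm
    refine Finset.sum_eq_zero fun κ _ => Finset.sum_eq_zero fun p _ => ?_
    by_cases h1 : k'.1 = κ
    · have h2 : κ ≠ k.1 := fun h => hk (h1.trans h)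
      rw [Cj_0 y (κ, p) k h2, mul_zero]
    · rw [Cj_0 x k' (κ, p) h1, zero_mul]

private theorem Cj_reg {m : ℕ} (k' k : Lt m) : RegF fun x : Bo m => ac x k' k := by
  have hr : ∀ i j : Fin m, RegF fun x : Bo m => mB x i j := fun i j =>
    RegF.co (X := Bo m) (i, j)
  have hi : ∀ i j : Fin m, RegF fun x : Bo m => mB x⁻¹ i j := fun i j =>
    (tMor m).2.2.2.1 (i, j)
  by_cases hk : k'.1 = k.1
  · by_cases ht : k.1 = some true
    · have h1 : (fun x : Bo m => ac x k' k) =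
          fun x => mB x k'.2.1.1 k.2.1.1 * mB x⁻¹ k.2.1.2 k'.2.1.2 :=
        funext fun x => Cj_t x k' k hk ht
      rw [h1]
      exact (hr _ _).mul (hi _ _)
    · have h1 : (fun x : Bo m => ac x k' k) =
          fun x => mB x⁻¹ k.2.1.1 k'.2.1.1 * mB x k'.2.1.2 k.2.1.2 :=
        funext fun x => Cj_f x k' k hk ht
      rw [h1]
      exact (hi _ _).mul (hr _ _)
  · have h1 : (fun x : Bo m => ac x k' k) = fun _ => 0 := funext fun x => Cj_0 x k' k hk
    rw [h1]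
    exact RegF.const 0

theorem tCj : S_Aq → S_Cj := by
  intro hAq m
  refine ⟨⟨Cj_kp, Cj_one, Cj_mul, Cj_reg⟩, fun b => ⟨Cj_kp b, (hAq m 0).kp b, ?_, ?_⟩⟩
  · intro k' k hk hcl
    have h1 : (k'.2.1.2 : ℕ) = k.2.1.2 := congrArg (fun c => c.2.1) hcl
    have h2 : k'.2.1.2 = k.2.1.2 := Fin.ext h1
    have h3 : ∀ (p : Fin m) (x : Gl m), trc 0 p x = x := by
      intro p x
      unfold trc
      rw [if_neg (Nat.not_lt_zero _)]
    unfold aq cm
    simp only [h3]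
    rw [if_pos ⟨hk, h2⟩]
    by_cases ht : k.1 = some true
    · rw [if_pos ht, Cj_t _ _ _ hk ht, h2]
    · rw [if_neg ht, Cj_f _ _ _ hk ht, h2]
  · intro k' k hcl hne
    have hk : k'.1 = k.1 := by
      by_contra h
      exact hne (Cj_0 b k' k h)
    have h1 : k'.2.1.2 ≠ k.2.1.2 := by
      intro h
      apply hcl
      unfold clq
      rw [hk, h]
      simp
    by_cases ht : k.1 = some true
    · rw [Cj_t _ _ _ hk ht] at hne
      have h2 : mB b⁻¹ k.2.1.2 k'.2.1.2 ≠ 0 := right_ne_zero_of_mul hne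
      have h3 : k.2.1.2 < k'.2.1.2 := lt_of_le_of_ne (Cj_up _ h2) (Ne.symm h1)
      unfold hc
      rw [if_pos ht, if_pos (hk.trans ht)]
      exact_mod_cast h3
    · rw [Cj_f _ _ _ hk ht] at hne
      have h2 : mB b k'.2.1.2 k.2.1.2 ≠ 0 := right_ne_zero_of_mul hne
      have h3 : k'.2.1.2 < k.2.1.2 := lt_of_le_of_ne (Cj_up _ h2) h1
      unfold hc
      rw [if_neg ht, if_neg fun h => ht (hk.symm.trans h)]
      have h4 : (k'.2.1.2 : ℕ) < k.2.1.2 := h3
      omega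

end PW
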