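import Pool.Agent.Lib.MP_3b3418_ag.PW.SpecF

/-! # Project PV2, module F/Cm: products of column matrices -/

set_option autoImplicit false

namespace PW

open MP3s PV

/-- A sum over the letters of one kind and one column. -/
private theorem Cm_sum {m : ℕ} (κ : Option Bool) (p : Fin m) (f : Lt m → ℂ) (G : Fin m → ℂ)
    (h0 : ∀ k : Lt m, ¬ (k.1 = κ ∧ k.2.1.2 = p) → f k = 0)
    (h1 : ∀ (r : Fin m) (h : r < p), G r = f (κ, ⟨(r, p), h⟩))
    (h2 : ∀ r : Fin m, p ≤ r → G r = 0) : ∑ k, f k = ∑ r, G r := by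
  have e1 : ∑ x : {r : Fin m // r < p}, G x.1 = ∑ k, f k := by
    refine Fintype.sum_of_injective
      (fun x : {r : Fin m // r < p} => ((κ, ⟨(x.1, p), x.2⟩) : Lt m)) ?_ _ _ ?_ ?_
    · intro x y hxy
      simp only [Prod.mk.injEq, Subtype.mk.injEq, true_and, and_true] at hxy
      exact Subtype.ext hxy
    · intro k hk
      apply h0
      rintro ⟨hk1, hk2⟩
      apply hk
      obtain ⟨κ', ⟨⟨a, b⟩, hab⟩⟩ := k
      simp only at hk1 hk2
      subst hk1
      subst hk2
      exact ⟨⟨a, hab⟩, rfl⟩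
    · intro x
      exact h1 x.1 x.2
  have e2 : ∑ x : {r : Fin m // r < p}, G x.1 = ∑ r, G r := by
    refine Fintype.sum_of_injective Subtype.val Subtype.val_injective _ _ ?_ ?_
    · intro r hr
      apply h2
      by_contra hlt
      exact hr ⟨⟨r, not_le.1 hlt⟩, rfl⟩
    · intro x
      rfl
  rw [← e1, e2]

theorem tCm : S_Cm := by
  intro m X Z Y W d d' e e' hY hZ
  refine ⟨?_, ?_⟩
  · ext k' k
    obtain ⟨κ', ⟨⟨a', b'⟩, h'⟩⟩ := k'
    obtain ⟨κ, ⟨⟨a, b⟩, h⟩⟩ := k
    rw [Matrix.mul_apply]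
    by_cases hk : κ' = κ ∧ b' = b
    · obtain ⟨rfl, rfl⟩ := hk
      by_cases ht : κ' = some true
      · subst ht
        rw [Cm_sum (some true) b' _ (fun r => X b' a' r * d' b' * (Y b' r a * e' b'))]
        · simp only [cm, and_self, if_true, Matrix.mul_apply, Finset.sum_mul]
          refine Finset.sum_congr rfl (fun r _ => ?_)
          ring
        · rintro ⟨κ'', ⟨⟨a'', b''⟩, h''⟩⟩ hne
          have h3 : ¬ (some true = κ'' ∧ b' = b'') := fun h4 => hne ⟨h4.1.symm, h4.2.symm⟩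
          simp only [cm]
          rw [if_neg h3, zero_mul]
        · intro r hr
          simp [cm]
        · intro r hr
          rw [hY b' r a h hr]
          simp
      · rw [Cm_sum κ' b' _ (fun r => Z b' r a' * d b' * (W b' a r * e b'))]
        · simp only [cm, and_self, if_true, Matrix.mul_apply, Finset.sum_mul, if_neg ht]
          refine Finset.sum_congr rfl (fun r _ => ?_)
          ring
        · rintro ⟨κ'', ⟨⟨a'', b''⟩, h''⟩⟩ hne
          have h3 : ¬ (κ' = κ'' ∧ b' = b'') := fun h4 => hne ⟨h4.1.symm, h4.2.symm⟩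
          simp only [cm]
          rw [if_neg h3, zero_mul]
        · intro r hr
          simp [cm, ht]
        · intro r hr
          rw [hZ b' r a' h' hr]
          simp
    · have h5 : cm (fun p => X p * Y p) (fun p => W p * Z p) (fun p => d p * e p)
          (fun p => d' p * e' p) (κ', ⟨(a', b'), h'⟩) (κ, ⟨(a, b), h⟩) = 0 := by
        simp only [cm]
        rw [if_neg hk]
      rw [h5]
      apply Finset.sum_eq_zero
      rintro ⟨κ'', ⟨⟨a'', b''⟩, h''⟩⟩ _
      by_cases h6 : κ' = κ'' ∧ b' = b''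
      · have h7 : ¬ (κ'' = κ ∧ b'' = b) := fun h8 => hk ⟨h6.1.trans h8.1, h6.2.trans h8.2⟩
        simp only [cm]
        rw [if_neg h7, mul_zero]
      · simp only [cm]
        rw [if_neg h6, zero_mul]
  · ext k' k
    obtain ⟨κ', ⟨⟨a', b'⟩, h'⟩⟩ := k'
    obtain ⟨κ, ⟨⟨a, b⟩, h⟩⟩ := k
    rw [Matrix.one_apply]
    simp only [cm, Matrix.one_apply, mul_one, Prod.mk.injEq, Subtype.mk.injEq]
    by_cases hk : κ' = κ <;> by_cases hb : b' = b <;> by_cases ha : a' = a <;>
      simp [hk, hb, ha, eq_comm]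

end PW
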