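import Pool.Agent.Lib.MP_3b3418_ag.PW.SpecF

/-!
# Project PV2, part F: decomposition into the finer classes, finite dimension
-/

set_option autoImplicit false

namespace PW

open MP3s PV

private theorem Dc_map {m : ℕ} {C C' : Type} (cl : Lt m → C) (cl' : Lt m → C') (π : C' → C)
    (h : ∀ k, cl k = π (cl' k)) (l : List (Lt m)) :
    (((l.map cl' : List C') : Multiset C').map π) = ((l.map cl : List C) : Multiset C) := by
  rw [Multiset.map_coe, List.map_map]
  congr 1
  refine List.map_congr_left fun k _ => ?_
  rw [h k]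
  rfl

private theorem Dc_fin {m : ℕ} {C : Type} (cl : Lt m → C) (κ : Multiset C) :
    {l : List (Lt m) | ((l.map cl : List C) : Multiset C) = κ}.Finite := by
  refine (List.finite_length_eq (Lt m) (Multiset.card κ)).subset ?_
  intro l hl
  have h1 : ((l.map cl : List C) : Multiset C) = κ := hl
  change l.length = Multiset.card κ
  rw [← h1, Multiset.coe_card, List.length_map]

theorem tDc : S_Dc := by
  intro m C C' cl cl' π h κ
  constructor
  · have h1 : {f : RA m | ∃ l : List (Lt m), ((l.map cl : List C) : Multiset C) = κ ∧ f = wd l} =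
        wd '' {l : List (Lt m) | ((l.map cl : List C) : Multiset C) = κ} := by
      ext f
      constructor
      · rintro ⟨l, hl, rfl⟩
        exact ⟨l, hl, rfl⟩
      · rintro ⟨l, hl, rfl⟩
        exact ⟨l, hl, rfl⟩
    have h2 : (Yc cl κ) = Submodule.span ℂ
        (wd '' {l : List (Lt m) | ((l.map cl : List C) : Multiset C) = κ}) := by
      unfold Yc
      rw [h1]
    rw [h2]
    exact Module.Finite.span_of_finite ℂ ((Dc_fin cl κ).image wd)
  · have hfin := (Dc_fin cl κ).image (fun l : List (Lt m) => ((l.map cl' : List C') : Multiset C'))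
    have hK : ∀ κ', κ' ∈ hfin.toFinset ↔ κ'.map π = κ ∧
        ∃ l : List (Lt m), ((l.map cl' : List C') : Multiset C') = κ' := by
      intro κ'
      rw [Set.Finite.mem_toFinset]
      constructor
      · rintro ⟨l, hl, rfl⟩
        refine ⟨?_, l, rfl⟩
        have h1 : ((l.map cl : List C) : Multiset C) = κ := hl
        exact (Dc_map cl cl' π h l).trans h1
      · rintro ⟨h1, l, rfl⟩
        exact ⟨l, (Dc_map cl cl' π h l).symm.trans h1, rfl⟩
    refine ⟨hfin.toFinset, hK, le_antisymm ?_ ?_⟩
    · refine Submodule.span_le.2 ?_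
      rintro f ⟨l, hl, rfl⟩
      have h1 : (((l.map cl' : List C') : Multiset C')) ∈ hfin.toFinset :=
        (hK _).2 ⟨(Dc_map cl cl' π h l).trans hl, l, rfl⟩
      exact Submodule.mem_iSup_of_mem _ (Submodule.mem_iSup_of_mem h1
        (Submodule.subset_span ⟨l, rfl, rfl⟩))
    · refine iSup_le fun κ' => iSup_le fun hκ' => Submodule.span_le.2 ?_
      rintro f ⟨l, hl, rfl⟩
      refine Submodule.subset_span ⟨l, ?_, rfl⟩
      rw [← Dc_map cl cl' π h l, hl]
      exact ((hK κ').1 hκ').1

end PW
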