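import Pool.Agent.Lib.MP_3b3418_ag.PW.SpecF

/-!
# Module De: degeneration for words
-/

set_option autoImplicit false

namespace PW

open MP3s PV

private theorem De_rat {m : ℕ} {V : Type} [AddCommGroup V] [Module ℂ V]
    (ρ : Representation ℂ (Bo m) V) (μ : Fin m → ℤ) (h : Rat ρ) : Rat (tw ρ μ) := fun v =>
  (h v).smul ((tMor m).2.2.2.2.2 μ)

private theorem De_map {m : ℕ} {C C' : Type} {cl : Lt m → C} {cl' : Lt m → C'} {π : C' → C}
    (h1 : ∀ k, cl k = π (cl' k)) (l : List (Lt m)) :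
    ((l.map cl' : List C') : Multiset C').map π = ((l.map cl : List C) : Multiset C) := by
  rw [Multiset.map_coe, List.map_map]
  congr 1
  exact List.map_congr_left fun k _ => (h1 k).symm

private theorem De_sum {m : ℕ} {C' : Type} {cl' : Lt m → C'} {h : Lt m → ℤ} {hh : C' → ℤ}
    (h2 : ∀ k, h k = hh (cl' k)) (l : List (Lt m)) :
    (((l.map cl' : List C') : Multiset C').map hh).sum = (l.map h).sum := by
  rw [Multiset.map_coe, List.map_map, Multiset.sum_coe]
  congr 1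
  exact List.map_congr_left fun k _ => (h2 k).symm

/-- The difference of the two actions on a class. -/
private theorem De_dif (hW : S_Wt) {m : ℕ} {C C' : Type} {cl : Lt m → C} {cl' : Lt m → C'}
    {h : Lt m → ℤ} {π : C' → C} {hh : C' → ℤ} (h1 : ∀ k, cl k = π (cl' k))
    (h2 : ∀ k, h k = hh (cl' k)) {a a' : LM m} (hT : Tri cl cl' h a a') {κ : Multiset C}
    (K : Finset (Multiset C')) (hK : ∀ κ', κ' ∈ K ↔ κ'.map π = κ ∧
      ∃ l : List (Lt m), ((l.map cl' : List C') : Multiset C') = κ')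
    {κ' : Multiset C'} (hκ' : κ' ∈ K) (w : RA m) (hw : w ∈ Yc cl' κ') :
    Ph a w - Ph a' w ∈ ⨆ κ'' ∈ K.filter (fun κ'' => (κ'.map hh).sum < (κ''.map hh).sum),
      Yc (m := m) cl' κ'' := by
  set U : Submodule ℂ (RA m) :=
    ⨆ κ'' ∈ K.filter (fun κ'' => (κ'.map hh).sum < (κ''.map hh).sum), Yc (m := m) cl' κ'' with hU
  have hle : Yc cl' κ' ≤ U.comap ((Ph a).toLinearMap - (Ph a').toLinearMap) := by
    refine Submodule.span_le.2 ?_
    rintro f ⟨l, hl, rfl⟩
    have h3 := hW m C C' cl cl' h π hh h1 h2 a a' hT l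
    have h4 : Submodule.span ℂ {f | ∃ l' : List (Lt m),
        ((l'.map cl : List C) : Multiset C) = ((l.map cl : List C) : Multiset C) ∧
        (l.map h).sum < (l'.map h).sum ∧ f = wd l'} ≤ U := by
      refine Submodule.span_le.2 ?_
      rintro f ⟨l', hl', hs, rfl⟩
      have hm : ((l'.map cl' : List C') : Multiset C') ∈
          K.filter (fun κ'' => (κ'.map hh).sum < (κ''.map hh).sum) := by
        rw [Finset.mem_filter, hK]
        refine ⟨⟨?_, l', rfl⟩, ?_⟩
        · rw [De_map h1, hl', ← De_map h1, hl]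
          exact ((hK κ').1 hκ').1
        · rw [← hl, De_sum h2, De_sum h2]
          exact hs
      exact Submodule.mem_iSup_of_mem _ (Submodule.mem_iSup_of_mem hm
        (Submodule.subset_span ⟨l', rfl, rfl⟩))
    exact h4 h3
  exact hle hw

theorem tDe : S_Dg → S_Wt → S_Ev → S_Dc → S_Re → S_De := by
  classical
  intro hDg hW hEv hDc hRe m C C' _ cl cl' h π hh h1 h2 a a' hR hR' hT κ μ i hyp θ hθ
  obtain ⟨-, K, hK, hY⟩ := hDc m C C' cl cl' π h1 κ
  obtain ⟨D, ev, hinj, hD⟩ := hEv m C' cl'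
  choose θ' hθ' using fun κ' => (hRe m (Bo m) C' cl' a' hR' κ').1
  refine hDg m (RA m) (fun b => chr μ b • (Ph (a b)).toLinearMap) (Multiset C') K
    (fun κ' => Yc cl' κ') (fun κ' => tw (θ' κ') μ) D ev (fun κ' => (κ'.map hh).sum) i
    (fun κ' _ => De_rat _ μ ((hRe m (Bo m) C' cl' a' hR' κ').2 _ (hθ' κ')))
    (fun κ' _ w hw => hD κ' w hw) (fun κ' _ κ'' _ he => hinj he) ?_ ?_
    (Yc cl κ) (tw θ μ) hY ?_ (De_rat _ μ ((hRe m (Bo m) C cl a hR κ).2 θ hθ))
  · intro κ' hκ' b w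
    have h3 := De_dif hW h1 h2 (hT b) K hK hκ' w.1 w.2
    have h4 : (chr μ b • (Ph (a b)).toLinearMap) w.1 - (tw (θ' κ') μ b w).1 =
        chr μ b • (Ph (a b) w.1 - Ph (a' b) w.1) := by
      have h5 : (tw (θ' κ') μ b w).1 = chr μ b • Ph (a' b) w.1 := by
        rw [← hθ' κ' b w]
        rfl
      rw [h5, smul_sub]
      rfl
    show (chr μ b • (Ph (a b)).toLinearMap) w.1 - (tw (θ' κ') μ b w).1 ∈ _
    rw [h4]
    exact Submodule.smul_mem _ _ h3
  · intro κ' hκ'
    exact hyp κ' ((hK κ').1 hκ').1 ((hK κ').1 hκ').2 (θ' κ') (hθ' κ')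
  · intro b v
    show chr μ b • (θ b v).1 = chr μ b • Ph (a b) v.1
    rw [hθ b v]

end PW
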