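import Pool.Agent.Lib.MP_3b3418_ag.PW.SpecF

/-!
# Project PV2, part F: the last stage
-/

set_option autoImplicit false

namespace PW

open MP3s PV

private theorem Fn_chr_add {m : ℕ} (χ χ' : Fin m → ℤ) (b : Bo m) :
    chr (χ + χ') b = chr χ b * chr χ' b := by
  unfold chr
  rw [← Finset.prod_mul_distrib]
  refine Finset.prod_congr rfl fun i _ => ?_
  rw [Pi.add_apply, zpow_add₀ (mB_diag_ne b i)]

private theorem Fn_cons {m : ℕ} (k : Lt m) (l : List (Lt m)) : wd (k :: l) = el k * wd l := by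
  unfold wd
  rw [List.map_cons, List.prod_cons]

private theorem Fn_app {m : ℕ} (a b : List (Lt m)) : wd (a ++ b) = wd a * wd b := by
  unfold wd
  rw [List.map_append, List.prod_append]

private theorem Fn_sq {m : ℕ} (s : Bool) (p : Pr m) :
    el ((some s, p) : Lt m) * el ((some s, p) : Lt m) = 0 := by
  funext ν
  exact ExteriorAlgebra.ι_sq_zero (R := ℂ) (bv s p)

private theorem Fn_comm1 {m : ℕ} (s : Bool) (p : Pr m) (k : Lt m) :
    ∃ c : ℂ, el ((some s, p) : Lt m) * el k = c • (el k * el ((some s, p) : Lt m)) := by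
  rcases k with ⟨o, q⟩
  rcases o with _ | t
  · refine ⟨1, ?_⟩
    rw [one_smul]
    funext ν
    exact (Algebra.commutes (matN ν q.1.1 q.1.2) (ExteriorAlgebra.ι ℂ (bv s p))).symm
  · refine ⟨-1, ?_⟩
    funext ν
    have h := ExteriorAlgebra.ι_add_mul_swap (R := ℂ) (bv s p) (bv t q)
    have h2 : ExteriorAlgebra.ι ℂ (bv s p) * ExteriorAlgebra.ι ℂ (bv t q) =
        -(ExteriorAlgebra.ι ℂ (bv t q) * ExteriorAlgebra.ι ℂ (bv s p)) :=
      eq_neg_of_add_eq_zero_left h
    change ExteriorAlgebra.ι ℂ (bv s p) * ExteriorAlgebra.ι ℂ (bv t q) =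
        (-1 : ℂ) • (ExteriorAlgebra.ι ℂ (bv t q) * ExteriorAlgebra.ι ℂ (bv s p))
    rw [neg_smul, one_smul]
    exact h2

private theorem Fn_comm {m : ℕ} (s : Bool) (p : Pr m) (l : List (Lt m)) :
    ∃ c : ℂ, el ((some s, p) : Lt m) * wd l = c • (wd l * el ((some s, p) : Lt m)) := by
  induction l with
  | nil =>
    refine ⟨1, ?_⟩
    have h : wd ([] : List (Lt m)) = 1 := rfl
    rw [h, one_smul, mul_one, one_mul]
  | cons k l ih =>
    obtain ⟨c, hc⟩ := ih
    obtain ⟨d, hd⟩ := Fn_comm1 s p k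
    refine ⟨d * c, ?_⟩
    rw [Fn_cons, ← mul_assoc, hd, smul_mul_assoc, mul_assoc, hc, mul_smul_comm, smul_smul,
      mul_assoc]

/-- A word in which an odd letter occurs twice is zero. -/
private theorem Fn_zero {m : ℕ} (s : Bool) (p : Pr m) (l : List (Lt m))
    (h : 2 ≤ l.count (some s, p)) : wd l = 0 := by
  induction l with
  | nil => simp at h
  | cons k l ih =>
    by_cases hk : k = (some s, p)
    · subst hk
      rw [List.count_cons_self] at h
      have h2 : (some s, p) ∈ l := List.count_pos_iff.1 (by omega)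
      obtain ⟨a, b, rfl⟩ := List.append_of_mem h2
      obtain ⟨c, hc⟩ := Fn_comm s p a
      rw [Fn_cons, Fn_app, Fn_cons, ← mul_assoc, hc, smul_mul_assoc, mul_assoc,
        ← mul_assoc (el _) (el _), Fn_sq, zero_mul, mul_zero, smul_zero]
    · rw [List.count_cons_of_ne hk] at h
      rw [Fn_cons, ih h, mul_zero]

/-- At the last stage the class of a letter determines the letter. -/
private theorem Fn_inj {m : ℕ} : Function.Injective (clq (m := m) m) := by
  rintro ⟨o, ⟨⟨a, b⟩, h⟩⟩ ⟨o', ⟨⟨a', b'⟩, h'⟩⟩ he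
  simp only [clq, Prod.mk.injEq] at he
  obtain ⟨h1, h2, h3⟩ := he
  rw [if_pos b.isLt, if_pos b'.isLt] at h3
  have h4 : a = a' := Fin.ext (by omega)
  have h5 : b = b' := Fin.ext h2
  subst h1 h4 h5
  rfl

private theorem Fn_count {m : ℕ} (l l' : List (Lt m))
    (h : ((l.map (clq m) : List _) : Multiset (Option Bool × ℕ × ℕ)) =
      ((l'.map (clq m) : List _) : Multiset (Option Bool × ℕ × ℕ))) (k : Lt m) :
    l.count k = l'.count k := by
  rw [← Multiset.map_coe, ← Multiset.map_coe] at h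
  have h1 : (l : Multiset (Lt m)) = (l' : Multiset (Lt m)) :=
    Multiset.map_injective Fn_inj h
  exact (Multiset.coe_eq_coe.1 h1).count_eq k

/-- If an odd letter occurs twice in a word of class `κ`, then the module is zero. -/
private theorem Fn_bot {m : ℕ} (κ : Multiset (Option Bool × ℕ × ℕ)) (l : List (Lt m))
    (hl : ((l.map (clq m) : List _) : Multiset _) = κ) (hno : ¬ Odd1 l) :
    Yc (m := m) (clq m) κ = ⊥ := by
  unfold Odd1 at hno
  push Not at hno
  obtain ⟨s, p, hsp⟩ := hno
  unfold Yc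
  rw [Submodule.span_eq_bot]
  rintro f ⟨l', hl', rfl⟩
  refine Fn_zero s p l' ?_
  rw [Fn_count l' l (hl'.trans hl.symm) (some s, p)]
  omega

theorem tFn : S_Dc → S_Re → S_Aq → S_Al → S_Fn := by
  intro hDc _ _ hAl m κ η i hη hyp θ hθ
  have hfin : Module.Finite ℂ (Yc (m := m) (clq m) κ) :=
    (hDc m _ _ (clq m) (clq m) id (fun _ => rfl) κ).1
  have hact := (hAl m m κ θ hθ).2 le_rfl
  have hρ : ∀ (b : Bo m) (v : Yc (m := m) (clq m) κ),
      tw θ (del m - η - muK κ) b v = chr (del m - η) b • v := by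
    intro b v
    change chr (del m - η - muK κ) b • θ b v = _
    rw [hact, smul_smul, ← Fn_chr_add, sub_add_cancel]
  have hrat : Rat (tw θ (del m - η - muK κ)) := by
    intro v
    have h := Reg.smulConst ((tMor m).2.2.2.2.2 (del m - η)) v
    have h2 : (fun b : Bo m => tw θ (del m - η - muK κ) b v) =
        fun b : Bo m => chr (del m - η) b • v := funext fun b => hρ b v
    rw [h2]
    exact h
  by_cases hodd : ∀ l : List (Lt m), ((l.map (clq m) : List _) : Multiset _) = κ → Odd1 l
  · refine aFil m {del m - η} i ?_ _ _ hrat ?_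
    · intro μ hμ
      rw [Set.mem_singleton_iff] at hμ
      subst hμ
      refine aOneD m (del m - η) i ?_
      rw [sub_sub_cancel]
      intro _ hinv
      have h0 : invn η = 0 := by
        unfold invn
        rw [Finset.card_eq_zero, Finset.filter_eq_empty_iff]
        rintro ⟨a, b⟩ _ ⟨h1, h2⟩
        exact absurd h2 (not_lt.2 (hη a b h1).le)
      have hi : i = 0 := by rw [← hinv, h0]
      rw [hyp hodd hi]
      exact ⟨Equiv.refl _, fun k => rfl⟩
    · unfold WS
      rw [eq_top_iff]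
      intro v _
      exact Submodule.subset_span ⟨del m - η, rfl, fun t _ => hρ t v⟩
  · push Not at hodd
    obtain ⟨l, hl, hno⟩ := hodd
    have hbot := Fn_bot κ l hl hno
    have hsub : ∀ v : Yc (m := m) (clq m) κ, v = 0 := by
      intro v
      have h1 : v.1 ∈ (⊥ : Submodule ℂ (RA m)) := by
        rw [← hbot]
        exact v.2
      exact Subtype.ext ((Submodule.mem_bot ℂ).1 h1)
    refine aFil m ∅ i (fun μ h => absurd h (Set.notMem_empty μ)) _ _ hrat ?_
    unfold WS
    rw [eq_top_iff]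
    intro v _
    rw [hsub v]
    exact Submodule.zero_mem _

end PW
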