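import Pool.Agent.Lib.MP_3b3418_ag.PW.SpecF

/-!
# Project PV2, part F: the algebra homomorphisms `Ph a` on letters and words (`tPh : S_Ph`)
-/

set_option autoImplicit false

namespace PW

open MP3s PV

private theorem Ph_cfL_bv {m : ℕ} (s s' : Bool) (p p' : Pr m) :
    cfL s p (bv s' p') = if s = s' ∧ p = p' then (1 : ℂ) else 0 := by
  cases s <;> cases s'
  · change (Matrix.single p'.1.2 p'.1.1 (1 : ℂ)) p.1.2 p.1.1 = _
    rw [Matrix.single_apply]
    by_cases h : p = p'
    · subst h
      simp
    · rw [if_neg, if_neg]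
      · exact fun h1 => h h1.2
      · intro h1
        exact h (Subtype.ext (Prod.ext h1.2.symm h1.1.symm))
  · change (0 : ℂ) = _
    simp
  · change (0 : ℂ) = _
    simp
  · change (Matrix.single p'.1.1 p'.1.2 (1 : ℂ)) p.1.1 p.1.2 = _
    rw [Matrix.single_apply]
    by_cases h : p = p'
    · subst h
      simp
    · rw [if_neg, if_neg]
      · exact fun h1 => h h1.2
      · intro h1
        exact h (Subtype.ext (Prod.ext h1.1.symm h1.2.symm))

private theorem Ph_Ta_bv {m : ℕ} (a : LM m) (s : Bool) (p : Pr m) :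
    Ta a (bv s p) = ∑ p' : Pr m, a (some s, p') (some s, p) • bv s p' := by
  unfold Ta
  rw [LinearMap.sum_apply, Finset.sum_eq_single s]
  · rw [LinearMap.sum_apply, Finset.sum_eq_single p]
    · rw [LinearMap.smulRight_apply, Ph_cfL_bv, if_pos ⟨rfl, rfl⟩, one_smul]
    · intro q _ hq
      rw [LinearMap.smulRight_apply, Ph_cfL_bv, if_neg fun h => hq h.2, zero_smul]
    · intro h
      exact absurd (Finset.mem_univ _) h
  · intro t _ ht
    rw [LinearMap.sum_apply]
    refine Finset.sum_eq_zero fun q _ => ?_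
    rw [LinearMap.smulRight_apply, Ph_cfL_bv, if_neg fun h => ht h.1, zero_smul]
  · intro h
    exact absurd (Finset.mem_univ _) h

/-- `matN` as a linear map, at an entry. -/
private def Ph_ent {m : ℕ} (p : Pr m) : Nn m →ₗ[ℂ] ℂ where
  toFun ν := matN ν p.1.1 p.1.2
  map_add' _ _ := rfl
  map_smul' _ _ := rfl

private theorem Ph_ent_bv {m : ℕ} (p p' : Pr m) :
    Ph_ent p (bv true p').2 = if p = p' then (1 : ℂ) else 0 := by
  have h := Ph_cfL_bv true true p p'
  have h2 : Ph_ent p (bv true p').2 = cfL true p (bv true p') := rfl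
  rw [h2, h]
  by_cases hp : p = p'
  · rw [if_pos hp, if_pos ⟨rfl, hp⟩]
  · rw [if_neg hp, if_neg fun h => hp h.2]

private theorem Ph_matN_Na {m : ℕ} (a : LM m) (ν : Nn m) (p : Pr m) :
    matN (Na a ν) p.1.1 p.1.2 = ∑ p' : Pr m, a (none, p') (none, p) * matN ν p'.1.1 p'.1.2 := by
  have h0 : matN (Na a ν) p.1.1 p.1.2 = Ph_ent p (Na a ν) := rfl
  rw [h0]
  unfold Na
  rw [map_sum, Finset.sum_eq_single p]
  · rw [map_smul, Ph_ent_bv, if_pos rfl, smul_eq_mul, mul_one]
  · intro q _ hq
    rw [map_smul, Ph_ent_bv, if_neg (Ne.symm hq), smul_zero]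
  · intro h
    exact absurd (Finset.mem_univ _) h

private theorem Ph_apply {m : ℕ} (a : LM m) (f : RA m) (ν : Nn m) :
    Ph a f ν = ExteriorAlgebra.map (Ta a) (f (Na a ν)) := rfl

private theorem Ph_el {m : ℕ} {C : Type} (cl : Lt m → C) (a : LM m) (ha : KP cl a) (k : Lt m) :
    Ph a (el k) = ∑ k', a k' k • el k' := by
  obtain ⟨t, p⟩ := k
  rw [Fintype.sum_prod_type, Finset.sum_eq_single t]
  · funext ν
    rw [Ph_apply, Finset.sum_apply]
    cases t with
    | none =>
      change ExteriorAlgebra.map (Ta a) (algebraMap ℂ _ (matN (Na a ν) p.1.1 p.1.2)) = _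
      rw [AlgHom.commutes, Ph_matN_Na, map_sum]
      refine Finset.sum_congr rfl fun p' _ => ?_
      rw [map_mul, ← Algebra.smul_def]
      rfl
    | some s =>
      change ExteriorAlgebra.map (Ta a) (ExteriorAlgebra.ι ℂ (bv s p)) = _
      rw [ExteriorAlgebra.map_apply_ι, Ph_Ta_bv, map_sum]
      refine Finset.sum_congr rfl fun p' _ => ?_
      rw [map_smul]
      rfl
  · intro t' _ ht'
    refine Finset.sum_eq_zero fun p' _ => ?_
    rw [ha (t', p') (t, p) (Or.inl ht'), zero_smul]
  · intro h
    exact absurd (Finset.mem_univ _) h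

private theorem Ph_wd_cons {m : ℕ} (k : Lt m) (l : List (Lt m)) : wd (k :: l) = el k * wd l := by
  unfold wd
  rw [List.map_cons, List.prod_cons]

private theorem Ph_wd_nil {m : ℕ} : wd ([] : List (Lt m)) = 1 := by
  unfold wd
  rw [List.map_nil, List.prod_nil]

private theorem Ph_el_mul {m : ℕ} {C : Type} (cl : Lt m → C) (κ : Multiset C) (k : Lt m) (f : RA m)
    (hf : f ∈ Yc cl κ) : el k * f ∈ Yc cl (cl k ::ₘ κ) := by
  unfold Yc at hf
  induction hf using Submodule.span_induction with
  | mem x hx =>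
    obtain ⟨l, hl, rfl⟩ := hx
    refine Submodule.subset_span ⟨k :: l, ?_, (Ph_wd_cons k l).symm⟩
    rw [List.map_cons, ← hl, Multiset.cons_coe]
  | zero => rw [mul_zero]; exact Submodule.zero_mem _
  | add x y _ _ hx hy => rw [mul_add]; exact Submodule.add_mem _ hx hy
  | smul c x _ hx => rw [mul_smul_comm]; exact Submodule.smul_mem _ _ hx

private theorem Ph_wd_mem {m : ℕ} {C : Type} (cl : Lt m → C) (a : LM m) (ha : KP cl a)
    (l : List (Lt m)) : Ph a (wd l) ∈ Yc cl ((l.map cl : List C) : Multiset C) := by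
  induction l with
  | nil =>
    rw [Ph_wd_nil, map_one]
    exact Submodule.subset_span ⟨[], rfl, Ph_wd_nil.symm⟩
  | cons k l ih =>
    rw [Ph_wd_cons, map_mul, Ph_el cl a ha, Finset.sum_mul]
    refine Submodule.sum_mem _ fun k' _ => ?_
    rw [smul_mul_assoc]
    by_cases h : cl k' = cl k
    · refine Submodule.smul_mem _ _ ?_
      have h1 := Ph_el_mul cl _ k' _ ih
      rw [h, Multiset.cons_coe] at h1
      rw [List.map_cons]
      exact h1
    · rw [ha k' k (Or.inr h), zero_smul]
      exact Submodule.zero_mem _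

private theorem Ph_KP_mul {m : ℕ} {C : Type} (cl : Lt m → C) (a a' : LM m) (ha : KP cl a)
    (ha' : KP cl a') : KP cl (a * a') := by
  intro k' k h
  rw [Matrix.mul_apply]
  refine Finset.sum_eq_zero fun k'' _ => ?_
  by_cases h1 : k'.1 ≠ k''.1 ∨ cl k' ≠ cl k''
  · rw [ha k' k'' h1, zero_mul]
  · have h2 : k'.1 = k''.1 ∧ cl k' = cl k'' := by
      constructor
      · by_contra h3
        exact h1 (Or.inl h3)
      · by_contra h3
        exact h1 (Or.inr h3)
    rw [h2.1, h2.2] at h
    rw [ha' k'' k h, mul_zero]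

private theorem Ph_KP_one {m : ℕ} {C : Type} (cl : Lt m → C) : KP cl (1 : LM m) := by
  intro k' k h
  refine Matrix.one_apply_ne fun h1 => ?_
  subst h1
  rcases h with h | h <;> exact h rfl

theorem tPh : S_Ph := by
  intro m C cl a ha
  refine ⟨fun k => Ph_el cl a ha k, ?_, ?_, ?_⟩
  · intro κ f hf
    unfold Yc at hf
    induction hf using Submodule.span_induction with
    | mem x hx =>
      obtain ⟨l, hl, rfl⟩ := hx
      rw [← hl]
      exact Ph_wd_mem cl a ha l
    | zero => rw [map_zero]; exact Submodule.zero_mem _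
    | add x y _ _ hx hy => rw [map_add]; exact Submodule.add_mem _ hx hy
    | smul c x _ hx => rw [map_smul]; exact Submodule.smul_mem _ _ hx
  · intro a' ha' l
    induction l with
    | nil => rw [Ph_wd_nil, map_one, map_one, map_one]
    | cons k l ih =>
      rw [Ph_wd_cons, map_mul, map_mul, map_mul, ih]
      congr 1
      rw [Ph_el cl a' ha', Ph_el cl (a * a') (Ph_KP_mul cl a a' ha ha'), map_sum]
      simp_rw [map_smul, Ph_el cl a ha, Finset.smul_sum, smul_smul]
      rw [Finset.sum_comm]
      refine Finset.sum_congr rfl fun k' _ => ?_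
      rw [Matrix.mul_apply, Finset.sum_smul]
      refine Finset.sum_congr rfl fun k'' _ => ?_
      rw [mul_comm]
  · intro l
    induction l with
    | nil => rw [Ph_wd_nil, map_one]
    | cons k l ih =>
      rw [Ph_wd_cons, map_mul, ih, Ph_el cl 1 (Ph_KP_one cl), Finset.sum_eq_single k]
      · rw [Matrix.one_apply_eq, one_smul]
      · intro k' _ hk'
        rw [Matrix.one_apply_ne hk', zero_smul]
      · intro h
        exact absurd (Finset.mem_univ _) h

end PW
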