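import Pool.Agent.Lib.MP_3b3418_ag.PW.SpecF

/-!
# Project PV2, part F: the true action of `B` on words
-/

set_option autoImplicit false

namespace PW

open MP3s PV

/-! ## spans of words -/

section words

variable {R L : Type} [Ring R] [Algebra ℂ R]

/-- The span of the words with prescribed numbers of letters, up to `e` more letters `none`. -/
private def Ps_A (w : L → R) (c : L → Option Bool) (e n s t : ℕ) : Submodule ℂ R :=
  Submodule.span ℂ {f | ∃ l' : List L, n + e ≤ (l'.map c).count none ∧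
    (l'.map c).count (some true) + (l'.map c).count (some false) = s ∧
    (l'.map c).count none + t = n + (l'.map c).count (some true) ∧ f = (l'.map w).prod}

private theorem Ps_cnt (c : L → Option Bool) (l l' : List L) (x : Option Bool) :
    ((l ++ l').map c).count x = (l.map c).count x + (l'.map c).count x := by
  rw [List.map_append, List.count_append]

private theorem Ps_mul {w : L → R} {c : L → Option Bool} {e n s t e' n' s' t' : ℕ} {f g : R}
    (hf : f ∈ Ps_A w c e n s t) (hg : g ∈ Ps_A w c e' n' s' t') :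
    f * g ∈ Ps_A w c (e + e') (n + n') (s + s') (t + t') := by
  unfold Ps_A at hf hg
  induction hf using Submodule.span_induction with
  | mem f hf =>
    obtain ⟨l₁, h1, h2, h3, rfl⟩ := hf
    induction hg using Submodule.span_induction with
    | mem g hg =>
      obtain ⟨l₂, h4, h5, h6, rfl⟩ := hg
      refine Submodule.subset_span ⟨l₁ ++ l₂, ?_, ?_, ?_, ?_⟩
      · rw [Ps_cnt]
        omega
      · rw [Ps_cnt, Ps_cnt]
        omega
      · rw [Ps_cnt, Ps_cnt]
        omega
      · rw [List.map_append, List.prod_append]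
    | zero => rw [mul_zero]; exact Submodule.zero_mem _
    | add x y _ _ hx hy => rw [mul_add]; exact Submodule.add_mem _ hx hy
    | smul a x _ hx => rw [mul_smul_comm]; exact Submodule.smul_mem _ _ hx
  | zero => rw [zero_mul]; exact Submodule.zero_mem _
  | add x y _ _ hx hy => rw [add_mul]; exact Submodule.add_mem _ hx hy
  | smul a x _ hx => rw [smul_mul_assoc]; exact Submodule.smul_mem _ _ hx

private theorem Ps_mul' {w : L → R} {c : L → Option Bool} {n s t n' s' t' : ℕ} {f g : R}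
    (e e' E : ℕ) (hE : e + e' = E)
    (hf : f ∈ Ps_A w c e n s t) (hg : g ∈ Ps_A w c e' n' s' t') :
    f * g ∈ Ps_A w c E (n + n') (s + s') (t + t') := by
  subst hE
  exact Ps_mul hf hg

private theorem Ps_mono {w : L → R} {c : L → Option Bool} {n s t : ℕ} {f : R}
    (hf : f ∈ Ps_A w c 1 n s t) : f ∈ Ps_A w c 0 n s t := by
  refine Submodule.span_mono ?_ hf
  rintro g ⟨l, h1, h2, h3, h4⟩
  exact ⟨l, by omega, h2, h3, h4⟩

private theorem Ps_step {w : L → R} {κ : L → Option Bool} {n s t n' s' t' : ℕ} {a b c d : R}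
    (hc : c ∈ Ps_A w κ 0 n s t) (hac : a - c ∈ Ps_A w κ 1 n s t) (hd : d ∈ Ps_A w κ 0 n' s' t')
    (hbd : b - d ∈ Ps_A w κ 1 n' s' t') :
    a * b - c * d ∈ Ps_A w κ 1 (n + n') (s + s') (t + t') := by
  have hb : b ∈ Ps_A w κ 0 n' s' t' := by
    have h4 := Submodule.add_mem _ hd (Ps_mono hbd)
    have h5 : d + (b - d) = b := add_sub_cancel d b
    rwa [h5] at h4
  have h5 : c * (b - d) ∈ Ps_A w κ 1 (n + n') (s + s') (t + t') :=
    Ps_mul' 0 1 1 rfl hc hbd
  have h6 : (a - c) * b ∈ Ps_A w κ 1 (n + n') (s + s') (t + t') :=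
    Ps_mul' 1 0 1 rfl hac hb
  have e3 : a * b - c * d = c * (b - d) + (a - c) * b := by noncomm_ring
  rw [e3]
  exact Submodule.add_mem _ h5 h6

/-- The induction on the word. -/
private theorem Ps_main (w : L → R) (κ : L → Option Bool) (Φ Ψ : R → R) (hΦ0 : Φ 1 = 1)
    (hΦ : ∀ x y, Φ (x * y) = Φ x * Φ y) (hΨ0 : Ψ 1 = 1) (hΨ : ∀ x y, Ψ (x * y) = Ψ x * Ψ y)
    (h1 : ∀ k : L, Φ (w k) ∈ Ps_A w κ 0 (([k].map κ).count none)
      (([k].map κ).count (some true) + ([k].map κ).count (some false))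
      (([k].map κ).count (some true)))
    (h2 : ∀ k : L, Ψ (w k) - Φ (w k) ∈ Ps_A w κ 1 (([k].map κ).count none)
      (([k].map κ).count (some true) + ([k].map κ).count (some false))
      (([k].map κ).count (some true))) (l : List L) :
    Φ (l.map w).prod ∈ Ps_A w κ 0 ((l.map κ).count none)
      ((l.map κ).count (some true) + (l.map κ).count (some false))
      ((l.map κ).count (some true)) ∧
    Ψ (l.map w).prod - Φ (l.map w).prod ∈ Ps_A w κ 1 ((l.map κ).count none)
      ((l.map κ).count (some true) + (l.map κ).count (some false))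
      ((l.map κ).count (some true)) := by
  induction l with
  | nil =>
    have h0 : (([] : List L).map w).prod = 1 := rfl
    rw [h0, hΦ0, hΨ0, sub_self]
    exact ⟨Submodule.subset_span ⟨[], le_rfl, rfl, rfl, rfl⟩, Submodule.zero_mem _⟩
  | cons k l ih =>
    have hw : ((k :: l).map w).prod = w k * (l.map w).prod := by
      rw [List.map_cons, List.prod_cons]
    have e1 : ∀ x, ((k :: l).map κ).count x = ([k].map κ).count x + (l.map κ).count x :=
      fun x => Ps_cnt κ [k] l x
    have e2 : ([k].map κ).count (some true) + (l.map κ).count (some true) +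
        (([k].map κ).count (some false) + (l.map κ).count (some false)) =
        ([k].map κ).count (some true) + ([k].map κ).count (some false) +
        ((l.map κ).count (some true) + (l.map κ).count (some false)) := by omega
    rw [hw, hΦ, hΨ, e1, e1, e1, e2]
    exact ⟨Ps_mul' 0 0 0 rfl (h1 k) ih.1, Ps_step (h1 k) (h2 k) ih.1 ih.2⟩

end words

/-! ## normal forms -/

private def Ps_s {m : ℕ} : Tot m →ₗ[ℂ] Gl m where
  toFun p := matS p.1
  map_add' _ _ := rfl
  map_smul' _ _ := rfl

private def Ps_n {m : ℕ} : Tot m →ₗ[ℂ] Gl m where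
  toFun p := matN p.2
  map_add' _ _ := rfl
  map_smul' _ _ := rfl

private theorem Ps_ext {m : ℕ} {p q : Tot m} (h1 : Ps_s p = Ps_s q) (h2 : Ps_n p = Ps_n q) :
    p = q := Prod.ext (Subtype.ext h1) (Subtype.ext h2)

private theorem Ps_sbt {m : ℕ} (q : Pr m) : Ps_s (bv true q) = 0 := rfl

private theorem Ps_sbf {m : ℕ} (q : Pr m) : Ps_s (bv false q) = Matrix.single q.1.2 q.1.1 1 := rfl

private theorem Ps_nbt {m : ℕ} (q : Pr m) : Ps_n (bv true q) = Matrix.single q.1.1 q.1.2 1 := rfl

private theorem Ps_nbf {m : ℕ} (q : Pr m) : Ps_n (bv false q) = 0 := rfl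

private theorem Ps_upp0 {m : ℕ} : upp (0 : Gl m) = 0 := by
  funext a b
  change (if b < a then (0 : ℂ) else 0) = 0
  rw [ite_self]

private theorem Ps_rs {m : ℕ} (ν : Nn m) (p : Tot m) : Ps_s (red ν p) = low (Ps_s p) := rfl

private theorem Ps_rn {m : ℕ} (ν : Nn m) (p : Tot m) : Ps_n (red ν p) =
    Ps_n p - (matN ν * upp (Ps_s p) - upp (Ps_s p) * matN ν) := rfl

/-- The normal form in the basis. -/
private theorem Ps_red {m : ℕ} (ν : Nn m) (p : Tot m) :
    red ν p = (∑ q : Pr m, Ps_n (red ν p) q.1.1 q.1.2 • bv true q) +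
      ∑ q : Pr m, Ps_s p q.1.2 q.1.1 • bv false q := by
  refine Ps_ext ?_ ?_
  · rw [map_add, map_sum, map_sum]
    have h1 : ∑ q : Pr m, Ps_s (Ps_n (red ν p) q.1.1 q.1.2 • bv true q) = 0 := by
      refine Finset.sum_eq_zero fun q _ => ?_
      rw [map_smul, Ps_sbt, smul_zero]
    rw [h1, zero_add, Ps_rs]
    funext a b
    rw [Matrix.sum_apply]
    change (if b < a then Ps_s p a b else 0) = _
    have h2 : ∀ q : Pr m, Ps_s (Ps_s p q.1.2 q.1.1 • bv false q) a b =
        if q.1.2 = a ∧ q.1.1 = b then Ps_s p a b else 0 := by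
      intro q
      rw [map_smul, Ps_sbf]
      change Ps_s p q.1.2 q.1.1 * Matrix.single q.1.2 q.1.1 (1 : ℂ) a b = _
      rw [Matrix.single_apply]
      by_cases h4 : q.1.2 = a ∧ q.1.1 = b
      · rw [if_pos h4, if_pos h4, h4.1, h4.2, mul_one]
      · rw [if_neg h4, if_neg h4, mul_zero]
    rw [Finset.sum_congr rfl fun q _ => h2 q]
    by_cases hab : b < a
    · rw [if_pos hab, Finset.sum_eq_single (⟨(b, a), hab⟩ : Pr m)]
      · rw [if_pos ⟨rfl, rfl⟩]
      · intro q _ hq
        refine if_neg fun h5 => hq (Subtype.ext (Prod.ext h5.2 h5.1))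
      · exact fun h => absurd (Finset.mem_univ _) h
    · rw [if_neg hab]
      refine (Finset.sum_eq_zero fun q _ => if_neg fun h5 => hab ?_).symm
      rw [← h5.1, ← h5.2]
      exact q.2
  · rw [map_add, map_sum, map_sum]
    have h1 : ∑ q : Pr m, Ps_n (Ps_s p q.1.2 q.1.1 • bv false q) = 0 := by
      refine Finset.sum_eq_zero fun q _ => ?_
      rw [map_smul, Ps_nbf, smul_zero]
    rw [h1, add_zero]
    funext a b
    rw [Matrix.sum_apply]
    have h2 : ∀ q : Pr m, Ps_n (Ps_n (red ν p) q.1.1 q.1.2 • bv true q) a b =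
        if q.1.1 = a ∧ q.1.2 = b then Ps_n (red ν p) a b else 0 := by
      intro q
      rw [map_smul, Ps_nbt]
      change Ps_n (red ν p) q.1.1 q.1.2 * Matrix.single q.1.1 q.1.2 (1 : ℂ) a b = _
      rw [Matrix.single_apply]
      by_cases h4 : q.1.1 = a ∧ q.1.2 = b
      · rw [if_pos h4, if_pos h4, h4.1, h4.2, mul_one]
      · rw [if_neg h4, if_neg h4, mul_zero]
    rw [Finset.sum_congr rfl fun q _ => h2 q]
    by_cases hab : a < b
    · rw [Finset.sum_eq_single (⟨(a, b), hab⟩ : Pr m)]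
      · rw [if_pos ⟨rfl, rfl⟩]
      · intro q _ hq
        refine if_neg fun h5 => hq (Subtype.ext (Prod.ext h5.1 h5.2))
      · exact fun h => absurd (Finset.mem_univ _) h
    · rw [Finset.sum_eq_zero fun q _ => if_neg fun h5 => hab ?_]
      · exact (red ν p).2.2 a b (not_lt.1 hab)
      · rw [← h5.1, ← h5.2]
        exact q.2

private theorem Ps_inv {m : ℕ} (b : Bo m) : mat ((b⁻¹ : Bo m).1)⁻¹ = mB b :=
  congrArg mat (inv_inv b.1)

private theorem Ps_AdS {m : ℕ} (b : Bo m) (p : Tot m) :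
    Ps_s (Ad b p) = mB b * (Ps_s p * mB b⁻¹) := by
  rw [← Ps_inv b]
  rfl

private theorem Ps_AdN {m : ℕ} (b : Bo m) (p : Tot m) :
    Ps_n (Ad b p) = mB b * (Ps_n p * mB b⁻¹) := by
  rw [← Ps_inv b]
  rfl

private theorem Ps_entry {m : ℕ} (M M' : Gl m) (a c x y : Fin m) :
    (M * (Matrix.single a c (1 : ℂ) * M')) x y = M x a * M' c y := by
  rw [Matrix.mul_apply, Finset.sum_eq_single a]
  · rw [Matrix.single_mul_apply_same, one_mul]
  · intro z _ hz
    rw [Matrix.single_mul_apply_of_ne _ _ _ _ _ hz, mul_zero]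
  · exact fun h => absurd (Finset.mem_univ _) h

/-! ## letters -/

private theorem Ps_pairs {m : ℕ} (G : Fin m → Fin m → ℂ) (hG : ∀ x y, y ≤ x → G x y = 0) :
    ∑ x, ∑ y, G x y = ∑ p : Pr m, G p.1.1 p.1.2 := by
  rw [← Fintype.sum_prod_type' (f := G)]
  have h1 : ∑ q : Fin m × Fin m, G q.1 q.2 =
      ∑ q ∈ Finset.univ.filter (fun q : Fin m × Fin m => q.1 < q.2), G q.1 q.2 := by
    refine (Finset.sum_filter_of_ne fun q _ hq => ?_).symm
    by_contra h
    exact hq (hG _ _ (not_lt.1 h))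
  rw [h1]
  exact Finset.sum_subtype _ (fun q => by simp) (fun q : Fin m × Fin m => G q.1 q.2)

private theorem Ps_kind {m : ℕ} (b : Bo m) (x : Option Bool) (p : Pr m) :
    ∑ k' : Lt m, ac b k' (x, p) • el k' = ∑ p' : Pr m, ac b (x, p') (x, p) • el (x, p') := by
  rw [Fintype.sum_prod_type]
  refine Finset.sum_eq_single x ?_ ?_
  · intro x' _ hx
    refine Finset.sum_eq_zero fun p' _ => ?_
    have h1 : ac b (x', p') (x, p) = 0 := if_neg hx
    rw [h1, zero_smul]
  · exact fun h => absurd (Finset.mem_univ x) h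

private theorem Ps_n1 {m : ℕ} (b : Bo m) (p : Pr m) :
    Ps b (el (none, p)) = ∑ p' : Pr m, ac b (none, p') (none, p) • el (none, p') := by
  funext ν
  rw [Finset.sum_apply]
  change ExteriorAlgebra.map (red ν ∘ₗ Ad b) (algebraMap ℂ _ (matN (cN b ν) p.1.1 p.1.2)) = _
  rw [AlgHom.commutes]
  have h1 : matN (cN b ν) p.1.1 p.1.2 = ∑ p' : Pr m, ac b (none, p') (none, p) *
      matN ν p'.1.1 p'.1.2 := by
    have h2 : matN (cN b ν) = mB b⁻¹ * (matN ν * mB b) := rfl
    rw [h2, Matrix.mul_apply]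
    refine Eq.trans ?_ (Ps_pairs (fun x y => (mB b⁻¹ p.1.1 x * mB b y p.1.2) * matN ν x y)
      (fun x y h => by
        have h3 : matN ν x y = 0 := ν.2 x y h
        rw [h3, mul_zero]))
    refine Finset.sum_congr rfl fun x _ => ?_
    rw [Matrix.mul_apply, Finset.mul_sum]
    refine Finset.sum_congr rfl fun y _ => ?_
    ring
  rw [h1, map_sum]
  refine Finset.sum_congr rfl fun p' _ => ?_
  rw [map_mul, Pi.smul_apply, Algebra.smul_def]
  rfl

private theorem Ps_t1 {m : ℕ} (b : Bo m) (p : Pr m) :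
    Ps b (el (some true, p)) =
      ∑ p' : Pr m, ac b (some true, p') (some true, p) • el (some true, p') := by
  funext ν
  rw [Finset.sum_apply]
  change ExteriorAlgebra.map (red ν ∘ₗ Ad b) (ExteriorAlgebra.ι ℂ (bv true p)) = _
  rw [ExteriorAlgebra.map_apply_ι]
  change ExteriorAlgebra.ι ℂ (red ν (Ad b (bv true p))) = _
  have hs : Ps_s (Ad b (bv true p)) = 0 := by
    rw [Ps_AdS, Ps_sbt, zero_mul, mul_zero]
  rw [Ps_red ν (Ad b (bv true p)), Ps_rn, hs, Ps_upp0, mul_zero, zero_mul, sub_zero, sub_zero,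
    Ps_AdN, Ps_nbt]
  have h0 : ∑ q : Pr m, (0 : Gl m) q.1.2 q.1.1 • bv false q = 0 :=
    Finset.sum_eq_zero fun q _ => zero_smul _ _
  rw [h0, add_zero, map_sum]
  refine Finset.sum_congr rfl fun p' _ => ?_
  rw [Ps_entry, map_smul, Pi.smul_apply]
  rfl

/-- one coordinate function and one constant field -/
private theorem Ps_el {m : ℕ} (x y : Fin m) (p : Pr m) :
    (fun ν : Nn m => matN ν x y • ExteriorAlgebra.ι ℂ (bv true p) : RA m) ∈ Ps_A (el (m := m)) clk 1 0 1 0 := by
  by_cases h : x < y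
  · refine Submodule.subset_span ⟨[(none, ⟨(x, y), h⟩), (some true, p)], ?_, ?_, ?_, ?_⟩
    · simp [clk]
    · simp [clk]
    · simp [clk]
    · funext ν
      rw [Algebra.smul_def]
      change _ = ((el (none, ⟨(x, y), h⟩)) * ((el (some true, p)) * 1) : RA m) ν
      rw [mul_one]
      rfl
  · have h0 : (fun ν : Nn m => matN ν x y • ExteriorAlgebra.ι ℂ (bv true p) : RA m) = 0 := by
      funext ν
      have h1 : matN ν x y = 0 := ν.2 x y (not_lt.1 h)
      rw [h1, zero_smul]
      rfl
    rw [h0]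
    exact Submodule.zero_mem _

private theorem Ps_f1 {m : ℕ} (b : Bo m) (p : Pr m) :
    Ps b (el (some false, p)) -
      ∑ p' : Pr m, ac b (some false, p') (some false, p) • el (some false, p') ∈
        Ps_A (el (m := m)) clk 1 0 1 0 := by
  obtain ⟨Y, hY⟩ : ∃ Y : Gl m, Y = upp (mB b * (Matrix.single p.1.2 p.1.1 (1 : ℂ) * mB b⁻¹)) :=
    ⟨_, rfl⟩
  have h1 : Ps b (el (some false, p)) -
      ∑ p' : Pr m, ac b (some false, p') (some false, p) • el (some false, p') =
      ∑ q : Pr m, ∑ r : Fin m, (Y q.1.1 r •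
        (fun ν : Nn m => matN ν r q.1.2 • ExteriorAlgebra.ι ℂ (bv true q) : RA m) -
        Y r q.1.2 • (fun ν : Nn m => matN ν q.1.1 r • ExteriorAlgebra.ι ℂ (bv true q) : RA m)) := by
    rw [sub_eq_iff_eq_add]
    funext ν
    rw [Pi.add_apply, Finset.sum_apply, Finset.sum_apply]
    change ExteriorAlgebra.map (red ν ∘ₗ Ad b) (ExteriorAlgebra.ι ℂ (bv false p)) = _
    rw [ExteriorAlgebra.map_apply_ι]
    change ExteriorAlgebra.ι ℂ (red ν (Ad b (bv false p))) = _
    have hn : Ps_n (Ad b (bv false p)) = 0 := by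
      rw [Ps_AdN, Ps_nbf, zero_mul, mul_zero]
    rw [Ps_red ν (Ad b (bv false p)), Ps_rn, hn, Ps_AdS, Ps_sbf, ← hY, zero_sub, neg_sub, map_add,
      map_sum, map_sum]
    refine congrArg₂ (· + ·) (Finset.sum_congr rfl fun q _ => ?_)
      (Finset.sum_congr rfl fun q _ => ?_)
    · rw [map_smul, Finset.sum_apply, Matrix.sub_apply, Matrix.mul_apply, Matrix.mul_apply,
        ← Finset.sum_sub_distrib, Finset.sum_smul]
      refine Finset.sum_congr rfl fun r _ => ?_
      change _ = Y q.1.1 r • (matN ν r q.1.2 • ExteriorAlgebra.ι ℂ (bv true q)) -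
        Y r q.1.2 • (matN ν q.1.1 r • ExteriorAlgebra.ι ℂ (bv true q))
      rw [smul_smul, smul_smul, ← sub_smul, mul_comm (matN ν q.1.1 r)]
    · rw [Ps_entry, map_smul, Pi.smul_apply, mul_comm]
      rfl
  rw [h1]
  exact Submodule.sum_mem _ fun q _ => Submodule.sum_mem _ fun r _ => Submodule.sub_mem _
    (Submodule.smul_mem _ _ (Ps_el _ _ _)) (Submodule.smul_mem _ _ (Ps_el _ _ _))

theorem tPs : S_Ph → S_Cj → S_Ps := by
  intro hPh hCj m b l
  have hel := (hPh m (Option Bool) clk (ac b) ((hCj m).1.kp b)).1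
  have h1 : ∀ k : Lt m, Ph (ac b) (el k) ∈ Ps_A (el (m := m)) clk 0 (([k].map clk).count none)
      (([k].map clk).count (some true) + ([k].map clk).count (some false))
      (([k].map clk).count (some true)) := by
    rintro ⟨x, p⟩
    rw [hel, Ps_kind]
    refine Submodule.sum_mem _ fun p' _ => Submodule.smul_mem _ _ (Submodule.subset_span
      ⟨[(x, p')], le_rfl, rfl, rfl, ?_⟩)
    rw [List.map_cons, List.map_nil, List.prod_cons, List.prod_nil, mul_one]
  have h2 : ∀ k : Lt m, Ps b (el k) - Ph (ac b) (el k) ∈ Ps_A (el (m := m)) clk 1 (([k].map clk).count none)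
      (([k].map clk).count (some true) + ([k].map clk).count (some false))
      (([k].map clk).count (some true)) := by
    rintro ⟨x, p⟩
    rw [hel, Ps_kind]
    rcases x with _ | x
    · rw [Ps_n1, sub_self]
      exact Submodule.zero_mem _
    · cases x with
      | true =>
        rw [Ps_t1, sub_self]
        exact Submodule.zero_mem _
      | false => exact Ps_f1 b p
  have h3 := (Ps_main el clk (fun f => Ph (ac b) f) (fun f => Ps b f) (Ph (ac b)).map_one'
    (Ph (ac b)).map_mul' (Ps b).map_one' (Ps b).map_mul' h1 h2 l).2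
  refine Submodule.span_mono ?_ h3
  rintro f ⟨l', h4, h5, h6, h7⟩
  exact ⟨l', by omega, h5, h6, h7⟩

end PW
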