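import Pool.Agent.Lib.MP_3b3418_ag.PW.SpecF

/-!
# Project PV2, part F: existence and rationality of the representations on `Yc`
-/

set_option autoImplicit false

namespace PW

open MP3s PV

private theorem Re_cons {m : ℕ} (k : Lt m) (l : List (Lt m)) : wd (k :: l) = el k * wd l := by
  unfold wd
  rw [List.map_cons, List.prod_cons]

private theorem Re_one {m : ℕ} {C : Type} (cl : Lt m → C) (κ : Multiset C)
    (h1 : ∀ l : List (Lt m), Ph (1 : LM m) (wd l) = wd l) :
    ∀ f ∈ Yc cl κ, Ph (1 : LM m) f = f := by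
  intro f hf
  unfold Yc at hf
  induction hf using Submodule.span_induction with
  | mem x hx =>
    obtain ⟨l, -, rfl⟩ := hx
    exact h1 l
  | zero => exact map_zero _
  | add x y _ _ hx hy => rw [map_add, hx, hy]
  | smul c x _ hx => rw [map_smul, hx]

private theorem Re_mul {m : ℕ} {C : Type} (cl : Lt m → C) (κ : Multiset C) (a a' : LM m)
    (h1 : ∀ l, Ph a (Ph a' (wd l)) = Ph (a * a') (wd l)) :
    ∀ f ∈ Yc cl κ, Ph (a * a') f = Ph a (Ph a' f) := by
  intro f hf
  unfold Yc at hf
  induction hf using Submodule.span_induction with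
  | mem x hx =>
    obtain ⟨l, -, rfl⟩ := hx
    exact (h1 l).symm
  | zero => rw [map_zero, map_zero, map_zero]
  | add x y _ _ hx hy => rw [map_add, map_add, map_add, hx, hy]
  | smul c x _ hx => rw [map_smul, map_smul, map_smul, hx]

private theorem Re_word {m : ℕ} {H : Type} [Group H] [Co H] {C : Type} {cl : Lt m → C}
    {a : H → LM m} (hP : S_Ph) (ha : RD cl a) (l : List (Lt m)) :
    Reg fun x : H => Ph (a x) (wd l) := by
  induction l with
  | nil =>
    have h1 : (fun x : H => Ph (a x) (wd ([] : List (Lt m)))) = fun _ : H => (1 : RA m) := by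
      funext x
      have h2 : wd ([] : List (Lt m)) = 1 := rfl
      rw [h2, map_one]
    rw [h1]
    exact Reg.const _
  | cons k l ih =>
    have h1 : (fun x : H => Ph (a x) (wd (k :: l))) =
        fun x : H => ∑ k', a x k' k • (LinearMap.mulLeft ℂ (el k')) (Ph (a x) (wd l)) := by
      funext x
      rw [Re_cons, map_mul, (hP m C cl (a x) (ha.kp x)).1 k, Finset.sum_mul]
      refine Finset.sum_congr rfl fun k' _ => ?_
      rw [smul_mul_assoc]
      rfl
    rw [h1]
    exact Reg.sum Finset.univ fun k' _ => (ih.map (LinearMap.mulLeft ℂ (el k'))).smul (ha.reg k' k)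

private theorem Re_all {m : ℕ} {H : Type} [Group H] [Co H] {C : Type} {cl : Lt m → C}
    {a : H → LM m} (hP : S_Ph) (ha : RD cl a) (κ : Multiset C) :
    ∀ f ∈ Yc cl κ, Reg fun x : H => Ph (a x) f := by
  intro f hf
  unfold Yc at hf
  induction hf using Submodule.span_induction with
  | mem x hx =>
    obtain ⟨l, -, rfl⟩ := hx
    exact Re_word hP ha l
  | zero =>
    have h1 : (fun x : H => Ph (a x) (0 : RA m)) = fun _ => 0 := funext fun x => map_zero _
    rw [h1]
    exact Reg.zero
  | add x y _ _ hx hy =>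
    have h1 : (fun z : H => Ph (a z) (x + y)) = fun z => Ph (a z) x + Ph (a z) y :=
      funext fun z => map_add _ _ _
    rw [h1]
    exact hx.add hy
  | smul c x _ hx =>
    have h1 : (fun z : H => Ph (a z) (c • x)) = fun z => c • Ph (a z) x :=
      funext fun z => map_smul _ _ _
    rw [h1]
    exact hx.cSmul c

theorem tRe : S_Ph → S_Re := by
  intro hP m H _ _ C cl a ha κ
  have hst : ∀ x, ∀ f ∈ Yc cl κ, Ph (a x) f ∈ Yc cl κ := fun x =>
    (hP m C cl (a x) (ha.kp x)).2.1 κ
  constructor
  · refine ⟨{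
        toFun := fun x => (Ph (a x)).toLinearMap.restrict (hst x)
        map_one' := ?_
        map_mul' := ?_ }, fun x v => rfl⟩
    · refine LinearMap.ext fun v => Subtype.ext ?_
      change Ph (a 1) v.1 = v.1
      rw [ha.one]
      exact Re_one cl κ (hP m C cl (a 1) (ha.kp 1)).2.2.2 v.1 v.2
    · intro x y
      refine LinearMap.ext fun v => Subtype.ext ?_
      change Ph (a (x * y)) v.1 = Ph (a x) (Ph (a y) v.1)
      rw [ha.mul]
      exact Re_mul cl κ (a x) (a y)
        ((hP m C cl (a x) (ha.kp x)).2.2.1 (a y) (ha.kp y)) v.1 v.2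
  · intro θ hθ v
    have h1 := (Re_all hP ha κ v.1 v.2).codRestrict (Yc cl κ) fun x => hst x v.1 v.2
    have h2 : (fun x : H => θ x v) = fun x => (⟨Ph (a x) v.1, hst x v.1 v.2⟩ : Yc cl κ) :=
      funext fun x => Subtype.ext (hθ x v)
    rw [h2]
    exact h1

end PW
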