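import Pool.Agent.Lib.MP_3b3418_ag.PW.SpecF

/-!
# Project PV2, part F: induction over the stages
-/

set_option autoImplicit false

namespace PW

open MP3s PV

private theorem St_chr_add {m : ℕ} (μ μ' : Fin m → ℤ) (b : Bo m) :
    chr (μ + μ') b = chr μ b * chr μ' b := by
  unfold chr
  rw [← Finset.prod_mul_distrib]
  exact Finset.prod_congr rfl fun i _ => by rw [Pi.add_apply, zpow_add₀ (mB_diag_ne b i)]

private theorem St_tw {m : ℕ} {V : Type} [AddCommGroup V] [Module ℂ V]
    (ρ : Representation ℂ (Bo m) V) (μ μ' : Fin m → ℤ) : tw (tw ρ μ) μ' = tw ρ (μ + μ') := by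
  refine MonoidHom.ext fun b => ?_
  change chr μ' b • chr μ b • ρ b = chr (μ + μ') b • ρ b
  rw [smul_smul, St_chr_add, mul_comm]

/-- The sign of a kind. -/
private def St_sg (s : Option Bool) : ℤ := if s = some true then 1 else -1

private theorem St_Xl {m : ℕ} (k : Lt m) (l : List (Lt m)) (p : Pr m) :
    Xl (k :: l) p = Xl l p + if k.2 = p then St_sg k.1 else 0 := by
  obtain ⟨s, p'⟩ := k
  unfold Xl St_sg
  simp only [List.count_cons]
  by_cases hp : p' = p
  · subst hp
    rcases s with _ | _ | _ <;> simp <;> ring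
  · have h1 : ∀ t : Option Bool, ((s, p') == (t, p)) = false := fun t => by
      rw [beq_eq_false_iff_ne]
      intro h
      exact hp (Prod.ext_iff.1 h).2
    simp [h1, hp]

private theorem St_wq {m : ℕ} (q : ℕ) (k : Lt m) (l : List (Lt m)) :
    wq (Xl (k :: l)) q = wq (Xl l) q + if k.2.1.2.val = q then St_sg k.1 • rt k.2 else 0 := by
  unfold wq
  have e : ∀ p : Pr m, (if p.1.2.val = q then Xl (k :: l) p • rt p else 0) =
      (if p.1.2.val = q then Xl l p • rt p else 0) +
        (if k.2 = p then (if k.2.1.2.val = q then St_sg k.1 • rt k.2 else 0) else 0) := by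
    intro p
    rw [St_Xl]
    by_cases h1 : k.2 = p
    · subst h1
      by_cases h2 : k.2.1.2.val = q
      · simp only [h2, if_true, add_smul]
      · simp only [h2, if_false, if_true, add_zero]
    · simp only [h1, if_false, add_zero]
  rw [Finset.sum_congr rfl fun p _ => e p, Finset.sum_add_distrib]
  congr 1
  rw [Finset.sum_ite_eq Finset.univ k.2]
  simp

private theorem St_wtc {m : ℕ} (q : ℕ) (k : Lt m) :
    (wtc (clq (q + 1) k) : Fin m → ℤ) =
      wtc (clq q k) + if k.2.1.2.val = q then St_sg k.1 • rt k.2 else 0 := by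
  funext i
  obtain ⟨s, ⟨⟨x, y⟩, hxy⟩⟩ := k
  simp only [clq, wtc, Pi.add_apply]
  rcases lt_trichotomy y.val q with h | h | h
  · have h1 : y.val < q + 1 := by omega
    have h2 : y.val ≠ q := by omega
    simp [h, h1, h2]
  · have h1 : y.val < q + 1 := by omega
    have h2 : ¬ y.val < q := by omega
    have h3 : (i.val = y.val) ↔ i = y := Fin.ext_iff.symm
    have h4 : (i.val = x.val) ↔ i = x := Fin.ext_iff.symm
    simp only [h1, h2, h, if_true, if_false, rt, root, St_sg, Pi.smul_apply, smul_eq_mul,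
      Nat.add_right_cancel_iff, Nat.succ_ne_zero, zero_add]
    rw [← h]
    simp only [h3, h4]
    simp [h4]
  · have h1 : ¬ y.val < q + 1 := by omega
    have h2 : y.val ≠ q := by omega
    have h3 : ¬ y.val < q := by omega
    simp [h1, h2, h3]

private theorem St_mu {m : ℕ} (q : ℕ) (l : List (Lt m)) :
    (muK ((l.map (clq (q + 1)) : List _) : Multiset _) : Fin m → ℤ) =
      muK ((l.map (clq q) : List _) : Multiset _) + wq (Xl l) q := by
  induction l with
  | nil =>
    have h : wq (Xl ([] : List (Lt m))) q = 0 := by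
      unfold wq Xl
      simp
    rw [h]
    simp [muK]
  | cons k l ih =>
    have e : ∀ n : ℕ, (muK (((k :: l).map (clq n) : List _) : Multiset _) : Fin m → ℤ) =
        wtc (clq n k) + muK ((l.map (clq n) : List _) : Multiset _) := by
      intro n
      rw [List.map_cons, ← Multiset.cons_coe]
      unfold muK
      rw [Multiset.map_cons, Multiset.sum_cons]
    rw [e, e, ih, St_wtc, St_wq]
    abel

private theorem St_mu0 {m : ℕ} (l : List (Lt m)) :
    (muK ((l.map (clq 0) : List _) : Multiset _) : Fin m → ℤ) = 0 := by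
  induction l with
  | nil => simp [muK]
  | cons k l ih =>
    rw [List.map_cons, ← Multiset.cons_coe]
    unfold muK at ih ⊢
    rw [Multiset.map_cons, Multiset.sum_cons, ih, add_zero]
    funext i
    simp [wtc, clq]

private theorem St_sort {m : ℕ} (n : ℕ) (hn : n ≤ m) (ζ : Fin m → ℤ)
    (hz : ¬ ∃ i j : Fin m, i < j ∧ j.val < n ∧ ζ i = ζ j) : ∃ η', Srt n ζ η' := by
  obtain ⟨σ, hσ⟩ : ∃ σ : Equiv.Perm (Fin n), Monotone ((fun k : Fin n => - ζ (Fin.castLE hn k)) ∘ σ) :=
    ⟨_, Tuple.monotone_sort _⟩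
  obtain ⟨f, hf⟩ : ∃ f : Fin n ↪ Fin m, ∀ k, f k = Fin.castLE hn k :=
    ⟨Fin.castLEEmb hn, fun _ => rfl⟩
  refine ⟨fun k => ζ (σ.viaFintypeEmbedding f k), σ.viaFintypeEmbedding f, ?_, fun _ => rfl, ?_⟩
  · intro k hk
    apply Equiv.Perm.viaFintypeEmbedding_apply_notMem_range
    rintro ⟨x, rfl⟩
    rw [hf] at hk
    exact absurd x.2 (not_lt.2 hk)
  · intro i j hij hj
    have hi : i.val < n := lt_trans hij hj
    have ei : i = f ⟨i.val, hi⟩ := by rw [hf]; rfl
    have ej : j = f ⟨j.val, hj⟩ := by rw [hf]; rfl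
    have hle : (⟨i.val, hi⟩ : Fin n) ≤ ⟨j.val, hj⟩ := le_of_lt hij
    have h1 := hσ hle
    simp only [Function.comp_apply] at h1
    dsimp only
    rw [ei, ej, Equiv.Perm.viaFintypeEmbedding_apply_image, Equiv.Perm.viaFintypeEmbedding_apply_image,
      hf, hf]
    refine lt_of_le_of_ne (by linarith) fun h2 => ?_
    have hne : σ ⟨i.val, hi⟩ ≠ σ ⟨j.val, hj⟩ := fun h3 => by
      have h4 := congrArg Fin.val (σ.injective h3)
      exact absurd h4 (ne_of_lt hij)
    rcases lt_or_gt_of_ne hne with h3 | h3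
    · exact hz ⟨Fin.castLE hn (σ ⟨i.val, hi⟩), Fin.castLE hn (σ ⟨j.val, hj⟩), h3,
        (σ ⟨j.val, hj⟩).2, h2.symm⟩
    · exact hz ⟨Fin.castLE hn (σ ⟨j.val, hj⟩), Fin.castLE hn (σ ⟨i.val, hi⟩), h3,
        (σ ⟨i.val, hi⟩).2, h2⟩

private theorem St_step (hDe : S_De) (hAq : S_Aq) (hTq : S_Tq) (m q : ℕ)
    (κ : Multiset (Option Bool × ℕ × ℕ)) (μ : Fin m → ℤ) (i : ℕ)
    (h : ∀ l : List (Lt m), ((l.map (clq q) : List _) : Multiset _) = κ →
      TV (clq (q + 1)) (fun b => aq (q + 1) b) ((l.map (clq (q + 1)) : List _) : Multiset _) μ i) :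
    TV (clq q) (fun b => aq q b) κ μ i := by
  obtain ⟨hπ, ⟨hh, hhh⟩, htri⟩ := hTq m q
  refine hDe m _ _ (clq q) (clq (q + 1)) (hq q) (prq q) hh hπ hhh _ _ (hAq m q) (hAq m (q + 1)) htri
    κ μ i ?_
  rintro κ' hκ' ⟨l, rfl⟩
  refine h l ?_
  rw [← hκ', Multiset.map_coe, List.map_map]
  exact congrArg _ (List.map_congr_left fun k _ => hπ k)

private theorem St_claim (hSo : S_So) (hDe : S_De) (hAq : S_Aq) (hTq : S_Tq) (hAl : S_Al)
    (hFn : S_Fn) (m i : ℕ) : ∀ d q : ℕ, q + d = m →
    ∀ (κ : Multiset (Option Bool × ℕ × ℕ)) (η : Fin m → ℤ) (V : ℕ),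
      (∃ l : List (Lt m), ((l.map (clq q) : List _) : Multiset _) = κ) →
      (∀ l : List (Lt m), ((l.map (clq q) : List _) : Multiset _) = κ → Pth (Xl l) q η V) →
      (∀ l : List (Lt m), ((l.map (clq q) : List _) : Multiset _) = κ → Odd1 l →
        ∀ η', Pth (Xl l) m η' i → η' = del m) → V ≤ i →
      TV (clq q) (fun b => aq q b) κ (del m - η - muK κ) (i - V) := by
  intro d
  induction d with
  | zero =>
    intro q hq κ η V ⟨l₀, hl₀⟩ hP hO hV
    rw [Nat.add_zero] at hq
    subst hq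
    refine hFn q κ η (i - V) ?_ ?_
    · have h1 := hP l₀ hl₀
      intro a b hab
      cases h1 with
      | zero => exact absurd b.2 (Nat.not_lt_zero _)
      | step q' η₀ _ V₀ _ _ hs =>
        obtain ⟨s, _, _, h3⟩ := hs
        exact h3 a b hab b.2
    · intro hodd hi
      have hVi : V = i := by omega
      have h1 := hP l₀ hl₀
      rw [hVi] at h1
      exact hO l₀ hl₀ (hodd l₀ hl₀) η h1
  | succ d ih =>
    intro q hq κ η V hex hP hO hV
    have hqm : q < m := by omega
    apply St_step hDe hAq hTq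
    intro l₀ hl₀
    obtain ⟨ζ, hζ⟩ : ∃ ζ : Fin m → ℤ, ζ = η - wq (Xl l₀) q := ⟨_, rfl⟩
    obtain ⟨κ', hκ'⟩ : ∃ κ' : Multiset (Option Bool × ℕ × ℕ),
      κ' = ((l₀.map (clq (q + 1)) : List _) : Multiset _) := ⟨_, rfl⟩
    have hmu : (muK κ' : Fin m → ℤ) = muK κ + wq (Xl l₀) q := by
      rw [hκ', ← hl₀]
      exact St_mu q l₀
    have hμ : del m - η - muK κ = -(muK κ') + (del m - ζ) := by
      rw [hmu, hζ]
      abel
    rw [← hκ', hμ]
    intro θ' hθ'
    have hPM := (hAl m (q + 1) κ' θ' hθ').1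
    rw [← St_tw]
    obtain ⟨h1, h2⟩ := hSo m (q + 1) _ (tw θ' (-muK κ')) hPM ζ (i - V)
    by_cases heq : ∃ i j : Fin m, i < j ∧ j.val < q + 1 ∧ ζ i = ζ j
    · exact h1 heq
    · obtain ⟨η', hη'⟩ := St_sort (q + 1) (by omega) ζ heq
      obtain ⟨h3, h4⟩ := h2 η' hη'
      rcases Nat.lt_or_ge (i - V) (inn (q + 1) ζ) with hv | hv
      · exact h3 hv
      · refine h4 hv ?_
        -- words of class `κ'`
        have hcl : ∀ l : List (Lt m), ((l.map (clq (q + 1)) : List _) : Multiset _) = κ' →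
            ((l.map (clq q) : List _) : Multiset _) = κ := by
          intro l hl
          have hπ := (hTq m q).1
          have e : ∀ l : List (Lt m), ((l.map (clq q) : List _) : Multiset _) =
              ((l.map (clq (q + 1)) : List _) : Multiset _).map (prq q) := by
            intro l
            rw [Multiset.map_coe, List.map_map]
            exact congrArg _ (List.map_congr_left fun k _ => hπ k)
          rw [e, hl, hκ', ← e, hl₀]
        have hw : ∀ l : List (Lt m), ((l.map (clq (q + 1)) : List _) : Multiset _) = κ' →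
            wq (Xl l) q = wq (Xl l₀) q := by
          intro l hl
          have h5 := St_mu q l
          rw [hl, hcl l hl, hmu] at h5
          exact (add_left_cancel h5).symm
        have h6 := ih (q + 1) (by omega) κ' η' (V + inn (q + 1) ζ) ⟨l₀, hκ'.symm⟩
          (fun l hl => by
            have h7 := Pth.step q η η' V (hP l (hcl l hl)) hqm (by rw [hw l hl, ← hζ]; exact hη')
            rw [hw l hl, ← hζ] at h7
            exact h7)
          (fun l hl => hO l (hcl l hl)) (by omega)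
        have h8 := h6 θ' hθ'
        have e1 : del m - η' - muK κ' = -(muK κ') + (del m - η') := by abel
        rw [e1, ← St_tw] at h8
        rw [Nat.sub_sub]
        exact h8

theorem tSt : S_So → S_De → S_Aq → S_Tq → S_Al → S_Fn → S_St := by
  intro hSo hDe hAq hTq hAl hFn m i κ h
  by_cases hex : ∃ l : List (Lt m), ((l.map (clq 0) : List _) : Multiset _) = κ
  · have h1 := St_claim hSo hDe hAq hTq hAl hFn m i m 0 (by omega) κ (del m) 0 hex
      (fun l _ => Pth.zero) h (Nat.zero_le _)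
    obtain ⟨l, hl⟩ := hex
    have h2 : (muK κ : Fin m → ℤ) = 0 := by rw [← hl]; exact St_mu0 l
    rw [h2, sub_self, sub_zero, Nat.sub_zero] at h1
    exact h1
  · apply St_step hDe hAq hTq
    intro l hl
    exact absurd ⟨l, hl⟩ hex

end PW
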