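import Pool.Agent.Lib.MP_3b3418_ag.PW.SpecF

/-!
# Project PV2, module F/TA: Theorem A
-/

set_option autoImplicit false

namespace PW

open MP3s PV

private theorem TA_map {m : ℕ} (l : List (Lt m)) :
    (((l.map (clq 0) : List (Option Bool × ℕ × ℕ)) : Multiset (Option Bool × ℕ × ℕ)).map
      Prod.fst) = ((l.map clk : List (Option Bool)) : Multiset (Option Bool)) := by
  rw [Multiset.map_coe, List.map_map]
  rfl

private def TA_hh (c : Option Bool × ℕ × ℕ) : ℤ :=
  if c.1 = some true then (c.2.1 : ℤ) else -c.2.1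

theorem tTA : S_De → S_Aq → S_Cj → S_Ba → S_St → S_TA := by
  intro hDe hAq hCj hBa hSt m j k i ρM hM hRat hall
  refine hBa m j k ρM hM hRat i fun κ hκ => ?_
  refine hDe m (Option Bool) (Option Bool × ℕ × ℕ) clk (clq 0) hc Prod.fst TA_hh
    (fun _ => rfl) (fun _ => rfl) (fun b => ac b) (fun b => aq 0 b) (hCj m).1 (hAq m 0)
    (hCj m).2 κ 0 i ?_
  intro κ' hκ' _
  refine hSt m i κ' fun l hl hodd η hη => ?_
  refine hall l ?_ hodd η hη
  have h1 : ((l.map clk : List (Option Bool)) : Multiset (Option Bool)) = κ := by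
    rw [← TA_map, hl, hκ']
  rw [h1]
  exact hκ

end PW
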