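import Pool.Agent.Lib.MP_3b3418_ag.PW.SpecF

/-!
# Project PV2, module F/Tq: `aq q` is triangular with diagonal part `aq (q + 1)`
-/

set_option autoImplicit false

namespace PW

open MP3s PV

private theorem Tq_proj {m : ℕ} (q : ℕ) (k : Lt m) : clq q k = prq q (clq (q + 1) k) := by
  unfold clq prq
  by_cases h : k.2.1.2.val < q
  · have h1 : k.2.1.2.val < q + 1 := by omega
    simp only [if_pos h, if_pos h1]
  · simp only [if_neg h]

/-- The height as a function of the class of stage `q + 1`. -/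
private def Tq_hh (q : ℕ) (c : Option Bool × ℕ × ℕ) : ℤ :=
  if c.2.1 = q then (if c.1 = some true then -((c.2.2 : ℤ) - 1) else (c.2.2 : ℤ) - 1) else 0

private theorem Tq_h {m : ℕ} (q : ℕ) (k : Lt m) : hq q k = Tq_hh q (clq (q + 1) k) := by
  unfold hq Tq_hh clq
  by_cases h : k.2.1.2.val = q
  · have h1 : k.2.1.2.val < q + 1 := by omega
    simp only [if_pos h, if_pos h1]
    push_cast
    simp only [add_sub_cancel_right]
  · simp only [if_neg h]

private theorem Tq_col {m : ℕ} {q : ℕ} {k' k : Lt m} (h : clq q k' = clq q k) :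
    k'.2.1.2 = k.2.1.2 := by
  have h1 : (clq q k').2.1 = (clq q k).2.1 := by rw [h]
  exact Fin.ext h1

private theorem Tq_kind {m : ℕ} {q : ℕ} {k' k : Lt m} (h : clq q k' = clq q k) :
    k'.1 = k.1 := by
  have h1 : (clq q k').1 = (clq q k).1 := by rw [h]
  exact h1

private theorem Tq_row {m : ℕ} {q : ℕ} {k' k : Lt m} (h : clq q k' = clq q k)
    (hk : k.2.1.2.val < q) : k'.2.1.1 = k.2.1.1 := by
  have h0 := Tq_col h
  have h1 : (clq q k').2.2 = (clq q k).2.2 := by rw [h]
  unfold clq at h1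
  have hk' : k'.2.1.2.val < q := by rw [h0]; exact hk
  simp only [if_pos hk, if_pos hk'] at h1
  exact Fin.ext (by omega)

private theorem Tq_mk {m : ℕ} {q : ℕ} {k' k : Lt m} (h1 : k'.1 = k.1)
    (h2 : k'.2.1.2 = k.2.1.2) (h3 : k.2.1.2.val < q → k'.2.1.1 = k.2.1.1) :
    clq q k' = clq q k := by
  unfold clq
  rw [h1, h2]
  by_cases h : k.2.1.2.val < q
  · rw [h3 h]
  · simp only [if_neg h]

private theorem Tq_trc {m : ℕ} (q : ℕ) (p : Fin m) (x : Gl m) (i j : Fin m)
    (h : p.val < q + 1 → i = j) : trc q p x i j = trc (q + 1) p x i j := by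
  unfold trc
  by_cases h1 : p.val < q
  · have h2 : p.val < q + 1 := by omega
    rw [if_pos h1, if_pos h2]
  · rw [if_neg h1]
    by_cases h2 : p.val < q + 1
    · rw [if_pos h2, h h2, Matrix.diagonal_apply_eq]
    · rw [if_neg h2]

private theorem Tq_trc_eq {m : ℕ} (q : ℕ) (p : Fin m) (x : Gl m) (h : p.val = q) :
    trc q p x = x := by
  unfold trc
  rw [if_neg (by omega)]

/-- `aq q b` is triangular with diagonal part `aq (q + 1) b`. -/
theorem tTq : S_Aq → S_Tq := by
  intro hAq m q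
  refine ⟨Tq_proj q, ⟨Tq_hh q, Tq_h q⟩, fun b => ?_⟩
  refine ⟨(hAq m q).kp b, (hAq m (q + 1)).kp b, ?_, ?_⟩
  · intro k' k h1 h2
    have hc := Tq_col h2
    unfold aq cm
    simp only [h1, hc, and_self, if_true]
    by_cases hs : k.1 = some true
    · simp only [if_pos hs]
      rw [Tq_trc q k.2.1.2 (mB b) k'.2.1.1 k.2.1.1 fun h => Tq_row h2 h]
    · simp only [if_neg hs]
      rw [Tq_trc q k.2.1.2 (mB b⁻¹) k.2.1.1 k'.2.1.1 fun h => (Tq_row h2 h).symm]
  · intro k' k hne hnz
    have hk : k'.1 = k.1 := by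
      by_contra h
      exact hnz ((hAq m q).kp b k' k (Or.inl h))
    have hcl : clq q k' = clq q k := by
      by_contra h
      exact hnz ((hAq m q).kp b k' k (Or.inr h))
    have hc := Tq_col hcl
    have hcq : k.2.1.2.val = q := by
      by_contra h
      refine hne (Tq_mk hk hc fun h1 => Tq_row hcl ?_)
      omega
    have hr : k'.2.1.1 ≠ k.2.1.1 := fun h => hne (Tq_mk hk hc fun _ => h)
    have hrv : k'.2.1.1.val ≠ k.2.1.1.val := fun h => hr (Fin.ext h)
    have hcq' : k'.2.1.2.val = q := by rw [hc]; exact hcq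
    unfold aq cm at hnz
    simp only [hk, hc, and_self, if_true] at hnz
    unfold hq
    rw [if_pos hcq, if_pos hcq']
    by_cases hs : k.1 = some true
    · have hs' : k'.1 = some true := hk.trans hs
      simp only [if_pos hs] at hnz
      rw [if_pos hs, if_pos hs']
      rw [Tq_trc_eq q _ _ hcq] at hnz
      have h1 : mB b k'.2.1.1 k.2.1.1 ≠ 0 := left_ne_zero_of_mul hnz
      have h2 : ¬ k.2.1.1 < k'.2.1.1 := fun h => h1 (b.2 k'.2.1.1 k.2.1.1 h)
      have h3 : ¬ k.2.1.1.val < k'.2.1.1.val := fun h => h2 (Fin.lt_def.mpr h)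
      omega
    · have hs' : ¬ k'.1 = some true := fun h => hs (hk.symm.trans h)
      simp only [if_neg hs] at hnz
      rw [if_neg hs, if_neg hs']
      rw [Tq_trc_eq q _ _ hcq] at hnz
      have h1 : mB b⁻¹ k.2.1.1 k'.2.1.1 ≠ 0 := left_ne_zero_of_mul hnz
      have h2 : ¬ k'.2.1.1 < k.2.1.1 := fun h => h1 ((b⁻¹).2 k.2.1.1 k'.2.1.1 h)
      have h3 : ¬ k'.2.1.1.val < k.2.1.1.val := fun h => h2 (Fin.lt_def.mpr h)
      omega

end PW
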