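import Pool.Agent.Lib.MP_3b3418_ag.PW.SpecF

/-!
# Project PV2, F/Wt: `Ph a` is triangular on the words
-/

set_option autoImplicit false
set_option linter.all false

namespace PW

open MP3s PV

/-- The span of the words with the classes `κ` and height at least `t`. -/
private noncomputable def Wt_U {m : ℕ} {C : Type} (cl : Lt m → C) (h : Lt m → ℤ)
    (κ : Multiset C) (t : ℤ) : Submodule ℂ (RA m) :=
  Submodule.span ℂ {f | ∃ l' : List (Lt m), ((l'.map cl : List C) : Multiset C) = κ ∧
    t ≤ (l'.map h).sum ∧ f = wd l'}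

private theorem Wt_wd_cons {m : ℕ} (k : Lt m) (l : List (Lt m)) : wd (k :: l) = el k * wd l := by
  unfold wd
  rw [List.map_cons, List.prod_cons]

private theorem Wt_wd_app {m : ℕ} (l1 l2 : List (Lt m)) : wd (l1 ++ l2) = wd l1 * wd l2 := by
  unfold wd
  rw [List.map_append, List.prod_append]

private theorem Wt_wd_one {m : ℕ} (k : Lt m) : wd [k] = el k := by
  unfold wd
  rw [List.map_cons, List.map_nil, List.prod_cons, List.prod_nil, mul_one]

private theorem Wt_mul {m : ℕ} {C : Type} {cl : Lt m → C} {h : Lt m → ℤ} {κ1 κ2 : Multiset C}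
    {t1 t2 : ℤ} {x y : RA m} (hx : x ∈ Wt_U cl h κ1 t1) (hy : y ∈ Wt_U cl h κ2 t2) :
    x * y ∈ Wt_U cl h (κ1 + κ2) (t1 + t2) := by
  have h1 : x * y ∈ Wt_U cl h κ1 t1 * Wt_U cl h κ2 t2 := Submodule.mul_mem_mul hx hy
  unfold Wt_U at h1
  rw [Submodule.span_mul_span] at h1
  refine Submodule.span_mono ?_ h1
  rintro f ⟨f1, ⟨l1, e1, s1, rfl⟩, f2, ⟨l2, e2, s2, rfl⟩, rfl⟩
  refine ⟨l1 ++ l2, ?_, ?_, (Wt_wd_app l1 l2).symm⟩
  · rw [List.map_append, ← Multiset.coe_add, e1, e2]
  · rw [List.map_append, List.sum_append]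
    exact add_le_add s1 s2

private theorem Wt_mono {m : ℕ} {C : Type} {cl : Lt m → C} {h : Lt m → ℤ} {κ : Multiset C}
    {t t' : ℤ} (ht : t ≤ t') {x : RA m} (hx : x ∈ Wt_U cl h κ t') : x ∈ Wt_U cl h κ t := by
  refine Submodule.span_mono ?_ hx
  rintro f ⟨l, e, s, rfl⟩
  exact ⟨l, e, ht.trans s, rfl⟩

private theorem Wt_sum {m : ℕ} {C : Type} {cl : Lt m → C} {h : Lt m → ℤ} {κ : C} {t : ℤ}
    (c : Lt m → ℂ) (hc : ∀ k, c k ≠ 0 → cl k = κ ∧ t ≤ h k) :
    ∑ k, c k • el k ∈ Wt_U cl h ({κ} : Multiset C) t := by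
  refine Submodule.sum_mem _ fun k _ => ?_
  by_cases h0 : c k = 0
  · rw [h0, zero_smul]
    exact Submodule.zero_mem _
  · obtain ⟨h1, h2⟩ := hc k h0
    refine Submodule.smul_mem _ _ (Submodule.subset_span ⟨[k], ?_, ?_, (Wt_wd_one k).symm⟩)
    · rw [List.map_cons, List.map_nil, h1]
      rfl
    · rw [List.map_cons, List.map_nil, List.sum_cons, List.sum_nil, add_zero]
      exact h2

theorem tWt : S_Ph → S_Wt := by
  intro hPh m C C' cl cl' h π hh hcl hhh a a' ht l
  have hka : KP cl a' := by
    intro k' k hk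
    refine ht.ka' k' k ?_
    rcases hk with hk | hk
    · exact Or.inl hk
    · refine Or.inr fun h1 => hk ?_
      rw [hcl, hcl, h1]
  have hpa := (hPh m C cl a ht.ka).1
  have hpa' := (hPh m C cl a' hka).1
  have key : ∀ l : List (Lt m),
      Ph a' (wd l) ∈ Wt_U cl h ((l.map cl : List C) : Multiset C) (l.map h).sum ∧
      Ph a (wd l) - Ph a' (wd l) ∈
        Wt_U cl h ((l.map cl : List C) : Multiset C) ((l.map h).sum + 1) := by
    intro l
    induction l with
    | nil =>
      have h1 : (wd [] : RA m) = 1 := rfl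
      rw [h1, map_one, map_one, sub_self]
      exact ⟨Submodule.subset_span ⟨[], rfl, le_refl _, rfl⟩, Submodule.zero_mem _⟩
    | cons k l ih =>
      have hX : Ph a' (el k) ∈ Wt_U cl h ({cl k} : Multiset C) (h k) := by
        rw [hpa']
        refine Wt_sum (fun k' => a' k' k) fun k' hk' => ?_
        have h1 : cl' k' = cl' k := by
          by_contra hne
          exact hk' (ht.ka' k' k (Or.inr hne))
        refine ⟨by rw [hcl, hcl, h1], ?_⟩
        rw [hhh, hhh, h1]
      have hXp : Ph a (el k) - Ph a' (el k) ∈ Wt_U cl h ({cl k} : Multiset C) (h k + 1) := by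
        have e : Ph a (el k) - Ph a' (el k) = ∑ k', (a k' k - a' k' k) • el k' := by
          rw [hpa, hpa', ← Finset.sum_sub_distrib]
          exact Finset.sum_congr rfl fun k' _ => (sub_smul _ _ _).symm
        rw [e]
        refine Wt_sum (fun k' => a k' k - a' k' k) fun k' hk' => ?_
        have hk1 : k'.1 = k.1 := by
          by_contra hne
          apply hk'
          show a k' k - a' k' k = 0
          rw [ht.ka k' k (Or.inl hne), ht.ka' k' k (Or.inl hne), sub_zero]
        have hk2 : cl' k' ≠ cl' k := by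
          intro he
          apply hk'
          show a k' k - a' k' k = 0
          rw [ht.eq k' k hk1 he, sub_self]
        have hk3 : a' k' k = 0 := ht.ka' k' k (Or.inr hk2)
        have hk4 : a k' k ≠ 0 := by
          intro h0
          apply hk'
          show a k' k - a' k' k = 0
          rw [h0, hk3, sub_zero]
        refine ⟨?_, Int.add_one_le_iff.2 (ht.up k' k hk2 hk4)⟩
        by_contra hne
        exact hk4 (ht.ka k' k (Or.inr hne))
      obtain ⟨hY, hYp⟩ := ih
      have hYa : Ph a (wd l) ∈ Wt_U cl h ((l.map cl : List C) : Multiset C) (l.map h).sum := by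
        have e : Ph a (wd l) = Ph a' (wd l) + (Ph a (wd l) - Ph a' (wd l)) := by abel
        rw [e]
        exact Submodule.add_mem _ hY (Wt_mono (by omega) hYp)
      have hm : (((k :: l).map cl : List C) : Multiset C) =
          {cl k} + ((l.map cl : List C) : Multiset C) := by
        rw [List.map_cons, ← Multiset.cons_coe, Multiset.singleton_add]
      have hs : ((k :: l).map h).sum = h k + (l.map h).sum := by
        rw [List.map_cons, List.sum_cons]
      rw [hm, hs, Wt_wd_cons, map_mul, map_mul]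
      refine ⟨Wt_mul hX hY, ?_⟩
      have e : Ph a (el k) * Ph a (wd l) - Ph a' (el k) * Ph a' (wd l) =
          Ph a' (el k) * (Ph a (wd l) - Ph a' (wd l)) +
            (Ph a (el k) - Ph a' (el k)) * Ph a (wd l) := by
        rw [mul_sub, sub_mul]
        abel
      rw [e]
      refine Submodule.add_mem _ (Wt_mono (le_of_eq ?_) (Wt_mul hX hYp))
        (Wt_mono (le_of_eq ?_) (Wt_mul hXp hYa))
      · ring
      · ring
  refine Submodule.span_mono ?_ (key l).2
  rintro f ⟨l', e, s, rfl⟩
  exact ⟨l', e, Int.add_one_le_iff.1 s, rfl⟩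

end PW
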