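import Pool.Agent.Lib.MP_3b3418_ag.PW.SpecF

/-!
# Em: the module of the normal forms inside the algebra of the words
-/

set_option autoImplicit false

namespace PW

open MP3s PV

/-- The odd letters of a word. -/
private def Em_od {m : ℕ} (l : List (Lt m)) : List (Bool × Pr m) :=
  l.filterMap fun k => k.1.map fun s => (s, k.2)

/-- The element of an odd letter. -/
private noncomputable def Em_g {m : ℕ} (x : Bool × Pr m) : ExteriorAlgebra ℂ (Tot m) :=
  ExteriorAlgebra.ι ℂ (bv x.1 x.2)

private theorem Em_od_nil {m : ℕ} : Em_od ([] : List (Lt m)) = [] := rfl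

private theorem Em_od_none {m : ℕ} (p : Pr m) (l : List (Lt m)) :
    Em_od ((none, p) :: l) = Em_od l := rfl

private theorem Em_od_some {m : ℕ} (s : Bool) (p : Pr m) (l : List (Lt m)) :
    Em_od ((some s, p) :: l) = (s, p) :: Em_od l := rfl

private theorem Em_wd_cons {m : ℕ} (k : Lt m) (l : List (Lt m)) : wd (k :: l) = el k * wd l := by
  unfold wd
  rw [List.map_cons, List.prod_cons]

/-- The value of a word. -/
private theorem Em_wd {m : ℕ} (l : List (Lt m)) (ν : Nn m) : wd l ν =
    (∏ p : Pr m, matN ν p.1.1 p.1.2 ^ l.count (none, p)) • ((Em_od l).map Em_g).prod := by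
  induction l with
  | nil =>
    have h1 : wd ([] : List (Lt m)) ν = 1 := rfl
    rw [h1, Em_od_nil, List.map_nil, List.prod_nil]
    simp
  | cons k l ih =>
    obtain ⟨s, p⟩ := k
    rw [Em_wd_cons, Pi.mul_apply, ih]
    cases s with
    | none =>
      have h1 : el ((none, p) : Lt m) ν = algebraMap ℂ _ (matN ν p.1.1 p.1.2) := rfl
      rw [h1, Em_od_none, ← Algebra.smul_def, smul_smul]
      congr 1
      have h2 : ∀ p' : Pr m, matN ν p'.1.1 p'.1.2 ^ ((none, p) :: l).count (none, p') =
          (if p' = p then matN ν p'.1.1 p'.1.2 else 1) *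
            matN ν p'.1.1 p'.1.2 ^ l.count (none, p') := by
        intro p'
        rw [List.count_cons]
        by_cases h : p' = p
        · rw [if_pos h, h, if_pos (by simp), pow_succ, mul_comm]
        · rw [if_neg h, if_neg (by simpa using fun h' => h h'.symm), add_zero, one_mul]
      rw [Finset.prod_congr rfl fun p' _ => h2 p', Finset.prod_mul_distrib,
        Finset.prod_ite_eq' Finset.univ p, if_pos (Finset.mem_univ p)]
    | some s =>
      have h1 : el ((some s, p) : Lt m) ν = ExteriorAlgebra.ι ℂ (bv s p) := rfl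
      rw [h1, Em_od_some, List.map_cons, List.prod_cons, mul_smul_comm]
      congr 1

/-- The number of letters of the kind `a`. -/
private def Em_k {m : ℕ} (a : Option Bool) (l : List (Lt m)) : ℕ :=
  Multiset.count a ((l.map clk : List _) : Multiset (Option Bool))

private theorem Em_k_nil {m : ℕ} (a : Option Bool) : Em_k a ([] : List (Lt m)) = 0 := rfl

private theorem Em_k_cons {m : ℕ} (a : Option Bool) (k : Lt m) (l : List (Lt m)) :
    Em_k a (k :: l) = Em_k a l + if a = k.1 then 1 else 0 := by
  unfold Em_k
  rw [List.map_cons, ← Multiset.cons_coe, Multiset.count_cons]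
  rfl

/-- The number of even letters. -/
private theorem Em_cn {m : ℕ} (l : List (Lt m)) :
    ∑ p : Pr m, l.count (none, p) = Em_k none l := by
  induction l with
  | nil => simp [Em_k_nil]
  | cons k l ih =>
    obtain ⟨s, p⟩ := k
    rw [Em_k_cons, ← ih]
    cases s with
    | none =>
      have h2 : ∀ p' : Pr m, ((none, p) :: l).count (none, p') =
          l.count (none, p') + if p' = p then 1 else 0 := by
        intro p'
        rw [List.count_cons]
        by_cases h : p' = p
        · rw [if_pos h, h, if_pos (by simp)]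
        · rw [if_neg h, if_neg (by simpa using fun h' => h h'.symm)]
      rw [Finset.sum_congr rfl fun p' _ => h2 p', Finset.sum_add_distrib,
        Finset.sum_ite_eq' Finset.univ p, if_pos (Finset.mem_univ p), if_pos rfl]
    | some s =>
      rw [if_neg (by simp), add_zero]
      refine Finset.sum_congr rfl fun p' _ => ?_
      rw [List.count_cons_of_ne (by simp)]

/-- The number of odd letters. -/
private theorem Em_len {m : ℕ} (l : List (Lt m)) : (Em_od l).length =
    Em_k (some true) l + Em_k (some false) l := by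
  induction l with
  | nil => rfl
  | cons k l ih =>
    obtain ⟨s, p⟩ := k
    rw [Em_k_cons, Em_k_cons]
    cases s with
    | none =>
      rw [Em_od_none, if_neg (by simp), if_neg (by simp), ih, add_zero, add_zero]
    | some s =>
      rw [Em_od_some, List.length_cons, ih]
      cases s
      · rw [if_neg (by simp), if_pos rfl]
        omega
      · rw [if_pos rfl, if_neg (by simp)]
        omega

/-- The number of letters of the kind `some true`. -/
private theorem Em_ct {m : ℕ} (l : List (Lt m)) :
    ((Em_od l).map fun x => if x.1 = true then 1 else 0).sum = Em_k (some true) l := by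
  induction l with
  | nil => rfl
  | cons k l ih =>
    obtain ⟨s, p⟩ := k
    rw [Em_k_cons]
    cases s with
    | none =>
      rw [Em_od_none, if_neg (by simp), ih, add_zero]
    | some s =>
      rw [Em_od_some, List.map_cons, List.sum_cons, ih]
      cases s
      · rw [if_neg (by simp), if_neg (by simp), zero_add, add_zero]
      · rw [if_pos rfl, if_pos rfl, add_comm]

/-- The exterior power inside the exterior algebra. -/
private theorem Em_wi {V : Type} [AddCommGroup V] [Module ℂ V] {j : ℕ} (v : Fin j → V) :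
    (⋀[ℂ]^j V).subtype (wi v) = (List.ofFn fun r => ExteriorAlgebra.ι ℂ (v r)).prod := by
  have h1 : (⋀[ℂ]^j V).subtype (wi v) = ExteriorAlgebra.ιMulti ℂ j v := rfl
  rw [h1, ExteriorAlgebra.ιMulti_apply]

/-- The image of a monomial. -/
private theorem Em_mon {m j : ℕ} (β : Pr m → ℕ) (u : Fin j → Bool × Pr m) (ν : Nn m) :
    inc m j (mon β u) ν = (∏ p : Pr m, matN ν p.1.1 p.1.2 ^ β p) •
      ((List.ofFn u).map Em_g).prod := by
  have h1 : inc m j (mon β u) ν = (⋀[ℂ]^j (Tot m)).subtype
      ((∏ p : Pr m, matN ν p.1.1 p.1.2 ^ β p) • wi fun r => bv (u r).1 (u r).2) := rfl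
  have h2 : (⋀[ℂ]^j (Tot m)).subtype
      ((∏ p : Pr m, matN ν p.1.1 p.1.2 ^ β p) • wi fun r => bv (u r).1 (u r).2) =
      (∏ p : Pr m, matN ν p.1.1 p.1.2 ^ β p) • (⋀[ℂ]^j (Tot m)).subtype
        (wi fun r => bv (u r).1 (u r).2) := map_smul _ _ _
  rw [h1, h2, Em_wi, List.map_ofFn]
  rfl

/-- A word with given even and odd letters. -/
private theorem Em_ex {m j : ℕ} (β : Pr m → ℕ) (u : Fin j → Bool × Pr m) :
    ∃ l : List (Lt m), (∀ p, l.count (none, p) = β p) ∧ Em_od l = List.ofFn u := by
  classical
  refine ⟨((Finset.univ : Finset (Pr m)).toList.flatMap fun p => List.replicate (β p) (none, p)) ++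
    (List.ofFn u).map (fun x => (some x.1, x.2)), fun p => ?_, ?_⟩
  · rw [List.count_append, List.count_flatMap]
    have h1 : ((List.ofFn u).map (fun x => ((some x.1, x.2) : Lt m))).count (none, p) = 0 := by
      refine List.count_eq_zero.2 fun h => ?_
      obtain ⟨x, -, hx⟩ := List.mem_map.1 h
      exact absurd (congrArg Prod.fst hx) (by simp)
    rw [h1, add_zero]
    have h2 : (List.count ((none, p) : Lt m) ∘ fun p' : Pr m => List.replicate (β p') (none, p')) =
        fun p' => if p' = p then β p' else 0 := by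
      funext p'
      simp only [Function.comp_apply, List.count_replicate]
      by_cases h : p' = p
      · rw [if_pos h, h, if_pos (by simp)]
      · rw [if_neg h, if_neg (by simpa using h)]
    rw [h2, Finset.sum_map_toList, Finset.sum_ite_eq' Finset.univ p, if_pos (Finset.mem_univ p)]
  · unfold Em_od
    rw [List.filterMap_append, List.filterMap_map]
    have h1 : List.filterMap (fun k : Lt m => k.1.map fun s => (s, k.2))
        ((Finset.univ : Finset (Pr m)).toList.flatMap fun p => List.replicate (β p) (none, p)) =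
          [] := by
      refine List.filterMap_eq_nil_iff.2 fun k hk => ?_
      obtain ⟨p, -, hp⟩ := List.mem_flatMap.1 hk
      rw [List.eq_of_mem_replicate hp]
      rfl
    rw [h1, List.nil_append]
    exact List.filterMap_some

/-- The maps of the exterior powers inside the exterior algebra. -/
private theorem Em_map {V W : Type} [AddCommGroup V] [Module ℂ V] [AddCommGroup W] [Module ℂ W]
    {j : ℕ} (f : V →ₗ[ℂ] W) (w : Wedge j V) :
    (⋀[ℂ]^j W).subtype (wL j f w) = ExteriorAlgebra.map f ((⋀[ℂ]^j V).subtype w) := by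
  have h1 : (⋀[ℂ]^j W).subtype ∘ₗ (exteriorPower.map j f) =
      (ExteriorAlgebra.map f).toLinearMap ∘ₗ (⋀[ℂ]^j V).subtype := by
    refine exteriorPower.linearMap_ext ?_
    ext v
    simp only [LinearMap.compAlternatingMap_apply, LinearMap.comp_apply,
      exteriorPower.map_apply_ιMulti, Submodule.subtype_apply, exteriorPower.ιMulti_apply_coe,
      AlgHom.toLinearMap_apply, ExteriorAlgebra.map_apply_ιMulti]
  exact LinearMap.congr_fun h1 w

theorem tEm : S_Em := by
  intro m j k
  obtain ⟨hm, -, hs⟩ := aMS m j k
  refine ⟨?_, le_antisymm ?_ ?_, ?_⟩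
  · intro q q' h
    funext ν
    exact Subtype.ext (congrFun h ν)
  · rw [Submodule.map_le_iff_le_comap]
    intro q hq
    refine (Submodule.span_le.2 ?_ : Submodule.span ℂ _ ≤ _) (hs ⟨q, hq⟩)
    rintro x ⟨β, u, -, hD, rfl⟩
    obtain ⟨l, hl1, hl2⟩ := Em_ex β u
    have hw : inc m j (mon β u) = wd l := by
      funext ν
      rw [Em_mon, Em_wd, hl2]
      congr 1
      exact Finset.prod_congr rfl fun p _ => by rw [hl1]
    have h1 := Em_cn l
    have h2 := Em_len l
    have h3 := Em_ct l
    rw [hl2, List.length_ofFn] at h2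
    rw [hl2, List.map_ofFn, List.sum_ofFn] at h3
    have h4 : ∑ p, l.count (none, p) = ∑ p, β p := Finset.sum_congr rfl fun p _ => hl1 p
    have h5 : (Finset.univ.filter fun r => (u r).1 = true).card = Em_k (some true) l := by
      rw [← h3, Finset.card_filter]
      rfl
    have hA : Adm j k ((l.map clk : List _) : Multiset (Option Bool)) := by
      unfold Dg at hD
      rw [h5] at hD
      refine ⟨h2.symm, ?_⟩
      change 2 * ((Em_k none l : ℕ) : ℤ) = k + 2 * ((Em_k (some true) l : ℕ) : ℤ)
      rw [← h1, h4]
      push_cast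
      exact hD
    rw [SetLike.mem_coe, Submodule.mem_comap, hw]
    exact Submodule.mem_iSup_of_mem _ (Submodule.mem_iSup_of_mem hA
      (Submodule.subset_span ⟨l, rfl, rfl⟩))
  · refine iSup₂_le fun κ hκ => Submodule.span_le.2 ?_
    rintro f ⟨l, hl, rfl⟩
    subst hl
    obtain ⟨hA1, hA2⟩ := hκ
    change Em_k (some true) l + Em_k (some false) l = j at hA1
    change 2 * ((Em_k none l : ℕ) : ℤ) = k + 2 * ((Em_k (some true) l : ℕ) : ℤ) at hA2
    have h2 := Em_len l
    rw [hA1] at h2
    subst h2
    have h3 := Em_ct l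
    set u : Fin (Em_od l).length → Bool × Pr m := fun r => (Em_od l).get r with hu
    have hu1 : List.ofFn u = Em_od l := List.ofFn_get _
    have h5 : (Finset.univ.filter fun r => (u r).1 = true).card = Em_k (some true) l := by
      rw [← h3, Finset.card_filter]
      conv_rhs => rw [← hu1, List.map_ofFn, List.sum_ofFn]
      rfl
    refine ⟨mon (fun p => l.count (none, p)) u, hm _ _ ?_, ?_⟩
    · unfold Dg
      rw [h5, ← hA2, ← Em_cn l]
      push_cast
      rfl
    · funext ν
      rw [Em_mon, Em_wd, hu1]
  · intro ρM hρ b q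
    funext ν
    have h1 : inc m j (ρM b q).1 ν = (⋀[ℂ]^j (Tot m)).subtype ((ρM b q).1 ν) := rfl
    have h2 : Ps b (inc m j q.1) ν = ExteriorAlgebra.map (red ν ∘ₗ Ad b)
        ((⋀[ℂ]^j (Tot m)).subtype (q.1 (cN b ν))) := rfl
    rw [h1, h2, hρ, wL_comp, Em_map]

end PW
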