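import Pool.Agent.Lib.MP_3b3418_ag.PW.SpecF

/-!
# Project PV2, module F/Ev: an operator with different eigenvalues on the classes
-/

set_option autoImplicit false

namespace PW

open MP3s PV

private theorem Ev_mul {C : Type} (P : C → ℕ) (hp : ∀ c, (P c).Prime) (hP : Function.Injective P) :
    Function.Injective fun κ : Multiset C => (κ.map P).prod := by
  have key : ∀ κ : Multiset C, κ.map P = ((κ.map P).prod.primeFactorsList : Multiset ℕ) := by
    intro κ
    induction κ using Quotient.inductionOn with
    | h l =>
      have h1 : ((l : Multiset C).map P) = ((l.map P : List ℕ) : Multiset ℕ) := rfl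
      rw [Multiset.quot_mk_to_coe, h1, Multiset.prod_coe]
      refine Multiset.coe_eq_coe.2 (Nat.primeFactorsList_unique rfl ?_)
      intro p hp'
      obtain ⟨c, -, rfl⟩ := List.mem_map.1 hp'
      exact hp c
  intro κ κ' h
  have h2 : κ.map P = κ'.map P := by
    rw [key κ, key κ']
    exact congrArg (fun n : ℕ => (n.primeFactorsList : Multiset ℕ)) h
  exact Multiset.map_injective hP h2

/-- **Ev** -/
theorem tEv : S_Ph → S_Ev := by
  intro h1 m C _ cl
  obtain ⟨e, he⟩ := Countable.exists_injective_nat C
  obtain ⟨P, hP⟩ : ∃ P : C → ℕ, P = fun c => Nat.nth Nat.Prime (e c) := ⟨_, rfl⟩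
  have hPp : ∀ c, (P c).Prime := by
    intro c
    rw [hP]
    exact Nat.prime_nth_prime _
  have hPi : Function.Injective P := by
    rw [hP]
    exact (Nat.nth_injective Nat.infinite_setOfPred_prime).comp he
  obtain ⟨a, ha⟩ : ∃ a : LM m, a = Matrix.diagonal (fun k => (P (cl k) : ℂ)) := ⟨_, rfl⟩
  have hk : KP cl a := by
    intro k' k h
    rw [ha]
    refine Matrix.diagonal_apply_ne _ ?_
    rintro rfl
    rcases h with h | h <;> exact h rfl
  have g1 := (h1 m C cl a hk).1
  have g2 : ∀ k, Ph a (el k) = (P (cl k) : ℂ) • el k := by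
    intro k
    rw [g1 k, Finset.sum_eq_single k]
    · rw [ha, Matrix.diagonal_apply_eq]
    · intro b _ hb
      rw [ha, Matrix.diagonal_apply_ne _ hb, zero_smul]
    · intro h
      exact absurd (Finset.mem_univ k) h
  have g3 : ∀ l : List (Lt m), Ph a (wd l) = ((((l.map cl).map P).prod : ℕ) : ℂ) • wd l := by
    intro l
    induction l with
    | nil =>
      have h2 : wd ([] : List (Lt m)) = 1 := rfl
      rw [h2, map_one]
      simp
    | cons k l ih =>
      have h2 : wd (k :: l) = el k * wd l := by
        unfold wd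
        rw [List.map_cons, List.prod_cons]
      rw [h2, map_mul, g2 k, ih, List.map_cons, List.map_cons, List.prod_cons, Nat.cast_mul,
        smul_mul_smul_comm]
  refine ⟨(Ph a).toLinearMap, fun κ => (((κ.map P).prod : ℕ) : ℂ),
    Nat.cast_injective.comp (Ev_mul P hPp hPi), ?_⟩
  intro κ f hf
  unfold Yc at hf
  induction hf using Submodule.span_induction with
  | mem x hx =>
    obtain ⟨l, hl, rfl⟩ := hx
    have h3 := g3 l
    have h4 : (κ.map P).prod = ((l.map cl).map P).prod := by
      rw [← hl]
      rfl
    rw [AlgHom.toLinearMap_apply, h3]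
    beta_reduce
    rw [h4]
  | zero => rw [map_zero, smul_zero]
  | add x y _ _ hx hy => rw [map_add, smul_add, hx, hy]
  | smul c x _ hx => rw [map_smul, hx, smul_comm]

end PW
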